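import Mathlib
import Pool.Agent.Helper947.Crv.Conf

set_option autoImplicit false

open Polynomial

namespace Pool.Agent.H918R2

section vec

variable {k : Type*} [CommRing k]

/-- dot product in dimension three -/
def dt (w x : Fin 3 → k) : k := w 0 * x 0 + w 1 * x 1 + w 2 * x 2

/-- cross product -/
def cr (x y : Fin 3 → k) : Fin 3 → k :=
  ![x 1 * y 2 - x 2 * y 1, x 2 * y 0 - x 0 * y 2, x 0 * y 1 - x 1 * y 0]

/-- three by three determinant -/
def d3 (x y z : Fin 3 → k) : k :=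
  x 0 * (y 1 * z 2 - y 2 * z 1) - x 1 * (y 0 * z 2 - y 2 * z 0) + x 2 * (y 0 * z 1 - y 1 * z 0)

end vec

variable {k : Type*} [Field k]

theorem exists_eval_ne {ι : Type*} [Finite ι] [Infinite k] (f : ι → k[X]) (hf : ∀ i, f i ≠ 0) :
    ∃ t, ∀ i, (f i).eval t ≠ 0 := by
  cases nonempty_fintype ι
  by_contra hcon
  push Not at hcon
  have hF : ∏ i, f i ≠ 0 := Finset.prod_ne_zero_iff.2 fun i _ => hf i
  apply hF
  apply Polynomial.funext
  intro t
  obtain ⟨i, hi⟩ := hcon t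
  rw [Polynomial.eval_prod, Finset.prod_eq_zero (Finset.mem_univ i) hi, Polynomial.eval_zero]

theorem exists_dt_ne {ι : Type*} [Finite ι] [Infinite k] (w : ι → Fin 3 → k)
    (hw : ∀ i, w i ≠ 0) : ∃ e : Fin 3 → k, ∀ i, dt (w i) e ≠ 0 := by
  obtain ⟨t, ht⟩ := exists_eval_ne (fun i => C (w i 0) + C (w i 1) * X + C (w i 2) * X ^ 2 : ι → k[X])
    (by
      intro i h
      apply hw i
      have h0 := congrArg (fun f => f.coeff 0) h
      have h1 := congrArg (fun f => f.coeff 1) h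
      have h2 := congrArg (fun f => f.coeff 2) h
      simp [coeff_X, coeff_C, coeff_X_pow] at h0 h1 h2
      ext a
      fin_cases a
      · exact h0
      · exact h1
      · exact h2)
  refine ⟨![1, t, t ^ 2], fun i => ?_⟩
  have := ht i
  simp only [eval_add, eval_mul, eval_C, eval_X, eval_pow] at this
  intro h
  apply this
  rw [← h]
  simp [dt]

/-- the matrix of a point -/
noncomputable def bm (s : Fin 3 → k) : Matrix (Fin 2) (Fin 2) k :=
  (s 2 ^ 2 + s 0 * s 1)⁻¹ • !![s 0 * s 1, s 0 * s 2; s 1 * s 2, s 2 ^ 2]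

/-- the matrix of a line -/
noncomputable def am (w : Fin 3 → k) (m : k) : Matrix (Fin 2) (Fin 2) k :=
  (m / (m ^ 2 + w 2 * m - w 0 * w 1)) • !![m + w 2, - w 1; - w 0, m]

/-- the matrix of the additional point -/
def b0 : Matrix (Fin 2) (Fin 2) k := !![1, 0; 0, 0]

theorem det_bm_bm {s s' : Fin 3 → k} (h : s 2 ^ 2 + s 0 * s 1 ≠ 0) (h' : s' 2 ^ 2 + s' 0 * s' 1 ≠ 0) :
    (bm s - bm s').det = - ((s 1 * s' 2 - s' 1 * s 2) * (s 0 * s' 2 - s' 0 * s 2)) /
      ((s 2 ^ 2 + s 0 * s 1) * (s' 2 ^ 2 + s' 0 * s' 1)) := by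
  rw [Matrix.det_fin_two]
  simp only [bm, Matrix.sub_apply, Matrix.smul_apply, smul_eq_mul, Matrix.of_apply, Matrix.cons_val_zero,
    Matrix.cons_val_one, Matrix.cons_val', Matrix.empty_val', Matrix.cons_val_fin_one]
  field_simp
  ring

theorem det_b0_bm {s : Fin 3 → k} (h : s 2 ^ 2 + s 0 * s 1 ≠ 0) :
    (b0 - bm s).det = - (s 2 ^ 2) / (s 2 ^ 2 + s 0 * s 1) := by
  rw [Matrix.det_fin_two]
  simp only [bm, b0, Matrix.sub_apply, Matrix.smul_apply, smul_eq_mul, Matrix.of_apply, Matrix.cons_val_zero,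
    Matrix.cons_val_one, Matrix.cons_val', Matrix.empty_val', Matrix.cons_val_fin_one]
  field_simp
  ring

theorem det_0_bm {s : Fin 3 → k} (h : s 2 ^ 2 + s 0 * s 1 ≠ 0) :
    (0 - bm s).det = 0 := by
  rw [Matrix.det_fin_two]
  simp only [bm, Matrix.sub_apply, Matrix.smul_apply, smul_eq_mul, Matrix.of_apply, Matrix.cons_val_zero,
    Matrix.cons_val_one, Matrix.cons_val', Matrix.empty_val', Matrix.cons_val_fin_one, Matrix.zero_apply]
  field_simp
  ring

theorem det_1_bm {s : Fin 3 → k} (h : s 2 ^ 2 + s 0 * s 1 ≠ 0) :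
    (1 - bm s).det = 0 := by
  rw [Matrix.det_fin_two]
  simp only [bm, Matrix.sub_apply, Matrix.smul_apply, smul_eq_mul, Matrix.of_apply, Matrix.cons_val_zero,
    Matrix.cons_val_one, Matrix.cons_val', Matrix.empty_val', Matrix.cons_val_fin_one, Matrix.one_apply]
  simp
  field_simp
  ring

theorem det_0_b0 : ((0 : Matrix (Fin 2) (Fin 2) k) - b0).det = 0 := by
  rw [Matrix.det_fin_two]; simp [b0]

theorem det_1_b0 : ((1 : Matrix (Fin 2) (Fin 2) k) - b0).det = 0 := by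
  rw [Matrix.det_fin_two]; simp [b0]

theorem det_0_1 : ((0 : Matrix (Fin 2) (Fin 2) k) - 1).det = 1 := by
  rw [Matrix.det_fin_two]; simp

theorem det_am_0 {w : Fin 3 → k} {m : k} (h : m ^ 2 + w 2 * m - w 0 * w 1 ≠ 0) :
    (am w m - 0).det = m ^ 2 / (m ^ 2 + w 2 * m - w 0 * w 1) := by
  rw [Matrix.det_fin_two]
  simp only [am, Matrix.sub_apply, Matrix.smul_apply, smul_eq_mul, Matrix.of_apply, Matrix.cons_val_zero,
    Matrix.cons_val_one, Matrix.cons_val', Matrix.empty_val', Matrix.cons_val_fin_one,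
    Matrix.zero_apply, div_eq_mul_inv]
  have hi := inv_mul_cancel₀ h
  generalize (m ^ 2 + w 2 * m - w 0 * w 1)⁻¹ = μ at hi ⊢
  linear_combination (m ^ 2 * μ) * hi

theorem det_am_1 {w : Fin 3 → k} {m : k} (h : m ^ 2 + w 2 * m - w 0 * w 1 ≠ 0) :
    (am w m - 1).det = - (w 0 * w 1) / (m ^ 2 + w 2 * m - w 0 * w 1) := by
  rw [Matrix.det_fin_two]
  simp only [am, Matrix.sub_apply, Matrix.smul_apply, smul_eq_mul, Matrix.of_apply, Matrix.cons_val_zero,
    Matrix.cons_val_one, Matrix.cons_val', Matrix.empty_val', Matrix.cons_val_fin_one,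
    Matrix.one_apply_eq, div_eq_mul_inv]
  rw [Matrix.one_apply_ne (by decide), Matrix.one_apply_ne (by decide)]
  have hi := inv_mul_cancel₀ h
  generalize (m ^ 2 + w 2 * m - w 0 * w 1)⁻¹ = μ at hi ⊢
  linear_combination (m ^ 2 * μ - 1) * hi

theorem det_am_am {w w' : Fin 3 → k} {m m' : k} (h : m ^ 2 + w 2 * m - w 0 * w 1 ≠ 0)
    (h' : m' ^ 2 + w' 2 * m' - w' 0 * w' 1 ≠ 0) :
    (am w m - am w' m').det = - ((m * w' 0 - m' * w 0) * (m * w' 1 - m' * w 1)) *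
      ((m ^ 2 + w 2 * m - w 0 * w 1)⁻¹ * (m' ^ 2 + w' 2 * m' - w' 0 * w' 1)⁻¹) := by
  rw [Matrix.det_fin_two]
  simp only [am, Matrix.sub_apply, Matrix.smul_apply, smul_eq_mul, Matrix.of_apply, Matrix.cons_val_zero,
    Matrix.cons_val_one, Matrix.cons_val', Matrix.empty_val', Matrix.cons_val_fin_one, div_eq_mul_inv]
  have hi := inv_mul_cancel₀ h
  have hi' := inv_mul_cancel₀ h'
  generalize (m ^ 2 + w 2 * m - w 0 * w 1)⁻¹ = μ at hi ⊢
  generalize (m' ^ 2 + w' 2 * m' - w' 0 * w' 1)⁻¹ = μ' at hi' ⊢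
  linear_combination (m ^ 2 * μ - m' ^ 2 * μ') * hi + (m' ^ 2 * μ' - m ^ 2 * μ) * hi'

theorem det_am_b0 {w : Fin 3 → k} {m : k} (h : m ^ 2 + w 2 * m - w 0 * w 1 ≠ 0) :
    (am w m - b0).det = 0 := by
  rw [Matrix.det_fin_two]
  simp only [am, b0, Matrix.sub_apply, Matrix.smul_apply, smul_eq_mul, Matrix.of_apply, Matrix.cons_val_zero,
    Matrix.cons_val_one, Matrix.cons_val', Matrix.empty_val', Matrix.cons_val_fin_one, div_eq_mul_inv]
  have hi := inv_mul_cancel₀ h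
  generalize (m ^ 2 + w 2 * m - w 0 * w 1)⁻¹ = μ at hi ⊢
  linear_combination (m ^ 2 * μ) * hi

theorem det_am_bm {w s : Fin 3 → k} {m : k} (h : m ^ 2 + w 2 * m - w 0 * w 1 ≠ 0)
    (h' : s 2 ^ 2 + s 0 * s 1 ≠ 0) :
    (am w m - bm s).det = - (m * dt w s * s 2) *
      ((m ^ 2 + w 2 * m - w 0 * w 1)⁻¹ * (s 2 ^ 2 + s 0 * s 1)⁻¹) := by
  rw [Matrix.det_fin_two]
  simp only [am, bm, dt, Matrix.sub_apply, Matrix.smul_apply, smul_eq_mul, Matrix.of_apply,
    Matrix.cons_val_zero,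
    Matrix.cons_val_one, Matrix.cons_val', Matrix.empty_val', Matrix.cons_val_fin_one, div_eq_mul_inv]
  have hi := inv_mul_cancel₀ h
  have hi' := inv_mul_cancel₀ h'
  generalize (m ^ 2 + w 2 * m - w 0 * w 1)⁻¹ = μ at hi ⊢
  generalize (s 2 ^ 2 + s 0 * s 1)⁻¹ = ν at hi' ⊢
  linear_combination (m ^ 2 * μ) * hi - (m ^ 2 * μ) * hi'

end Pool.Agent.H918R2
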