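import Mathlib
import Pool.Agent.H918R2.Real1

set_option autoImplicit false

open Polynomial

namespace Pool.Agent.H918R2

section vec

variable {k : Type*} [CommRing k]

theorem d3_eq (x y z : Fin 3 → k) : d3 z x y = dt (cr x y) z := by
  simp only [d3, dt, cr, Matrix.cons_val_zero, Matrix.cons_val_one, Matrix.cons_val]; ring

theorem d3_eq' (x y z : Fin 3 → k) : d3 x y z = dt (cr x y) z := by
  simp only [d3, dt, cr, Matrix.cons_val_zero, Matrix.cons_val_one, Matrix.cons_val]; ring

theorem d3_eq'' (x y z : Fin 3 → k) : d3 x z y = - dt (cr x y) z := by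
  simp only [d3, dt, cr, Matrix.cons_val_zero, Matrix.cons_val_one, Matrix.cons_val]; ring

/-- coordinates of points in a frame -/
def cs (eS eR eT x : Fin 3 → k) : Fin 3 → k := ![d3 x eR eT, d3 eS x eT, d3 eS eR x]

/-- coordinates of lines in a frame -/
def cw (eS eR eT w : Fin 3 → k) : Fin 3 → k := ![dt w eS, dt w eR, dt w eT]

theorem dt_cw_cs (eS eR eT w x : Fin 3 → k) :
    dt (cw eS eR eT w) (cs eS eR eT x) = d3 eS eR eT * dt w x := by
  simp only [d3, dt, cw, cs, Matrix.cons_val_zero, Matrix.cons_val_one, Matrix.cons_val]; ring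

theorem d3_cs (eS eR eT x y z : Fin 3 → k) :
    d3 (cs eS eR eT x) (cs eS eR eT y) (cs eS eR eT z) = d3 eS eR eT ^ 2 * d3 x y z := by
  simp only [d3, cs, Matrix.cons_val_zero, Matrix.cons_val_one, Matrix.cons_val]; ring

theorem cs_mul1 (eS eR eT x y : Fin 3 → k) :
    cs eS eR eT x 1 * cs eS eR eT y 2 - cs eS eR eT y 1 * cs eS eR eT x 2 =
      d3 eS eR eT * d3 eS x y := by
  simp only [d3, cs, Matrix.cons_val_zero, Matrix.cons_val_one, Matrix.cons_val]; ring

theorem cs_mul0 (eS eR eT x y : Fin 3 → k) :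
    cs eS eR eT x 0 * cs eS eR eT y 2 - cs eS eR eT y 0 * cs eS eR eT x 2 =
      - (d3 eS eR eT * d3 eR x y) := by
  simp only [d3, cs, Matrix.cons_val_zero, Matrix.cons_val_one, Matrix.cons_val]; ring

end vec

variable {k : Type*} [Field k]

theorem exists_w {x : Fin 3 → k} (hx : x ≠ 0) :
    ∃ w : Fin 3 → k, w ≠ 0 ∧ ∀ e, dt w e ≠ 0 → cr e x ≠ 0 := by
  by_cases h0 : x 0 = 0
  · by_cases h1 : x 1 = 0
    · have h2 : x 2 ≠ 0 := by
        intro h2
        apply hx
        ext a
        fin_cases a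
        · exact h0
        · exact h1
        · exact h2
      refine ⟨![- x 2, 0, x 0], ?_, ?_⟩
      · intro h
        have := congrFun h 0
        simp at this
        exact h2 this
      · intro e he h
        apply he
        have := congrFun h 1
        simp only [cr, Matrix.cons_val_one, Matrix.cons_val_zero, Pi.zero_apply] at this
        simp only [dt, Matrix.cons_val_zero, Matrix.cons_val_one, Matrix.cons_val]
        linear_combination this
    · refine ⟨![- x 1, x 0, 0], ?_, ?_⟩
      · intro h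
        have := congrFun h 0
        simp at this
        exact h1 this
      · intro e he h
        apply he
        have := congrFun h 2
        simp only [cr, Matrix.cons_val, Pi.zero_apply] at this
        simp only [dt, Matrix.cons_val_zero, Matrix.cons_val_one, Matrix.cons_val]
        linear_combination - this
  · refine ⟨![- x 1, x 0, 0], ?_, ?_⟩
    · intro h
      have := congrFun h 1
      simp at this
      exact h0 this
    · intro e he h
      apply he
      have := congrFun h 2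
      simp only [cr, Matrix.cons_val, Pi.zero_apply] at this
      simp only [dt, Matrix.cons_val_zero, Matrix.cons_val_one, Matrix.cons_val]
      linear_combination - this

theorem exists_frame [Infinite k] {I L : Type*} [Finite I] [Finite L] [Nonempty I]
    (pt : I → Fin 3 → k) (ln : L → Fin 3 → k) (hp0 : ∀ i, pt i ≠ 0) (hl0 : ∀ l, ln l ≠ 0)
    (hp : ∀ i j, i ≠ j → cr (pt i) (pt j) ≠ 0) :
    ∃ eS eR eT : Fin 3 → k, d3 eS eR eT ≠ 0 ∧ (∀ l, dt (ln l) eS ≠ 0 ∧ dt (ln l) eR ≠ 0) ∧
      (∀ i j, i ≠ j → d3 eS (pt i) (pt j) ≠ 0 ∧ d3 eR (pt i) (pt j) ≠ 0) ∧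
      (∀ i, d3 eS eR (pt i) ≠ 0) ∧
      (∀ i, (d3 eS eR (pt i)) ^ 2 + d3 (pt i) eR eT * d3 eS (pt i) eT ≠ 0) := by
  choose w hw0 hw using fun i => exists_w (hp0 i)
  obtain ⟨eS, hS⟩ := exists_dt_ne (ι := L ⊕ ({p : I × I // p.1 ≠ p.2} ⊕ I))
    (Sum.elim ln (Sum.elim (fun p => cr (pt p.1.1) (pt p.1.2)) w)) (by
      rintro (l | (p | i))
      · exact hl0 l
      · exact hp _ _ p.2
      · exact hw0 i)
  have hS1 : ∀ l, dt (ln l) eS ≠ 0 := fun l => hS (Sum.inl l)
  have hS2 : ∀ i j, i ≠ j → d3 eS (pt i) (pt j) ≠ 0 := by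
    intro i j hij
    rw [d3_eq]
    exact hS (Sum.inr (Sum.inl ⟨(i, j), hij⟩))
  have hS3 : ∀ i, cr eS (pt i) ≠ 0 := fun i => hw i eS (hS (Sum.inr (Sum.inr i)))
  obtain ⟨eR, hR⟩ := exists_dt_ne (ι := L ⊕ ({p : I × I // p.1 ≠ p.2} ⊕ I))
    (Sum.elim ln (Sum.elim (fun p => cr (pt p.1.1) (pt p.1.2)) (fun i => cr eS (pt i)))) (by
      rintro (l | (p | i))
      · exact hl0 l
      · exact hp _ _ p.2
      · exact hS3 i)
  have hR1 : ∀ l, dt (ln l) eR ≠ 0 := fun l => hR (Sum.inl l)
  have hR2 : ∀ i j, i ≠ j → d3 eR (pt i) (pt j) ≠ 0 := by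
    intro i j hij
    rw [d3_eq]
    exact hR (Sum.inr (Sum.inl ⟨(i, j), hij⟩))
  have hR3 : ∀ i, d3 eS eR (pt i) ≠ 0 := by
    intro i
    rw [d3_eq'', neg_ne_zero]
    exact hR (Sum.inr (Sum.inr i))
  obtain ⟨i0⟩ := ‹Nonempty I›
  obtain ⟨τ, hτ⟩ := exists_eval_ne (ι := Option I) (fun o => match o with
    | none => X
    | some i => C ((d3 eS eR (pt i)) ^ 2) + C (d3 (pt i) eR (pt i0) * d3 eS (pt i) (pt i0)) * X ^ 2)
    (by
      rintro (_ | i)
      · exact X_ne_zero
      · intro h
        have h0 := congrArg (fun f => f.eval 0) h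
        simp at h0
        exact hR3 i h0)
  have hτ0 : τ ≠ 0 := by
    have := hτ none
    simpa using this
  refine ⟨eS, eR, τ • pt i0, ?_, fun l => ⟨hS1 l, hR1 l⟩, fun i j h => ⟨hS2 i j h, hR2 i j h⟩,
    hR3, fun i => ?_⟩
  · have : d3 eS eR (τ • pt i0) = τ * d3 eS eR (pt i0) := by
      simp only [d3, Pi.smul_apply, smul_eq_mul]; ring
    rw [this]
    exact mul_ne_zero hτ0 (hR3 i0)
  · have h1 : d3 (pt i) eR (τ • pt i0) = τ * d3 (pt i) eR (pt i0) := by
      simp only [d3, Pi.smul_apply, smul_eq_mul]; ring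
    have h2 : d3 eS (pt i) (τ • pt i0) = τ * d3 eS (pt i) (pt i0) := by
      simp only [d3, Pi.smul_apply, smul_eq_mul]; ring
    have := hτ (some i)
    simp only [eval_add, eval_mul, eval_C, eval_X, eval_pow] at this
    rw [h1, h2]
    intro h
    apply this
    rw [← h]
    simp
    ring

theorem exists_m [Infinite k] {L : Type*} [Finite L] (w : L → Fin 3 → k)
    (hw : ∀ l, w l 0 ≠ 0 ∧ w l 1 ≠ 0) : ∃ m : L → k, (∀ l, m l ≠ 0) ∧
      (∀ l, m l ^ 2 + w l 2 * m l - w l 0 * w l 1 ≠ 0) ∧
      ∀ l l', l ≠ l' → m l * w l' 0 - m l' * w l 0 ≠ 0 ∧ m l * w l' 1 - m l' * w l 1 ≠ 0 := by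
  classical
  cases nonempty_fintype L
  let y : L → k := fun l => Infinite.natEmbedding k (Fintype.equivFin L l : ℕ)
  have hy : ∀ l l', l ≠ l' → y l - y l' ≠ 0 := by
    intro l l' h h1
    apply h
    have h2 := (Infinite.natEmbedding k).injective (sub_eq_zero.1 h1)
    exact (Fintype.equivFin L).injective (Fin.ext h2)
  obtain ⟨t, ht⟩ := exists_eval_ne (ι := L ⊕ (L ⊕ {p : L × L // p.1 ≠ p.2}))
    (Sum.elim (fun l => X + C (y l)) (Sum.elim
      (fun l => (C (w l 0) * (X + C (y l))) ^ 2 + C (w l 2) * (C (w l 0) * (X + C (y l))) -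
        C (w l 0 * w l 1))
      (fun p => C (w p.1.1 0 * w p.1.2 1) * (X + C (y p.1.1)) -
        C (w p.1.2 0 * w p.1.1 1) * (X + C (y p.1.2))))) (by
      rintro (l | (l | p)) h
      · have h1 := congrArg (fun f => f.coeff 1) h
        simp [coeff_C] at h1
      · have h1 := congrArg (fun f => f.coeff 2) h
        have h2 : ((C (w l 0) * (X + C (y l))) ^ 2 + C (w l 2) * (C (w l 0) * (X + C (y l))) -
          C (w l 0 * w l 1)) = C (w l 0 ^ 2) * X ^ 2 +
            C (2 * w l 0 ^ 2 * y l + w l 2 * w l 0) * X +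
            C (w l 0 ^ 2 * y l ^ 2 + w l 2 * w l 0 * y l - w l 0 * w l 1) := by
          simp only [map_mul, map_add, map_sub, map_pow, map_ofNat]
          ring
        simp only [Sum.elim_inr, Sum.elim_inl] at h1
        rw [h2, coeff_add, coeff_add, coeff_C_mul, coeff_C_mul, coeff_X_pow, coeff_X,
          coeff_C] at h1
        simp at h1
        exact (hw l).1 h1
      · obtain ⟨⟨l, l'⟩, hll⟩ := p
        have h1 := congrArg (fun f => f.coeff 1) h
        have h0 := congrArg (fun f => f.coeff 0) h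
        simp only [Sum.elim_inr, mul_add] at h1 h0
        simp [coeff_C, -map_mul] at h1 h0
        have e1 : w l 0 * w l' 1 = w l' 0 * w l 1 := by linear_combination h1
        have e2 : w l 0 * w l' 1 * (y l - y l') = 0 := by
          rw [← e1] at h0
          linear_combination h0
        rcases mul_eq_zero.1 e2 with e3 | e3
        · exact mul_ne_zero (hw l).1 (hw l').2 e3
        · exact hy l l' hll e3)
  refine ⟨fun l => w l 0 * (t + y l), fun l => ?_, fun l => ?_, fun l l' hll => ⟨?_, ?_⟩⟩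
  · have := ht (Sum.inl l)
    simp at this
    exact mul_ne_zero (hw l).1 this
  · have := ht (Sum.inr (Sum.inl l))
    simp only [Sum.elim_inr, Sum.elim_inl, eval_add, eval_sub, eval_mul, eval_C, eval_X,
      eval_pow] at this
    intro h
    apply this
    linear_combination h
  · intro h
    have : w l 0 * w l' 0 * (y l - y l') = 0 := by linear_combination h
    rcases mul_eq_zero.1 this with e3 | e3
    · exact mul_ne_zero (hw l).1 (hw l').1 e3
    · exact hy l l' hll e3
  · have := ht (Sum.inr (Sum.inr ⟨(l, l'), hll⟩))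
    simp only [Sum.elim_inr, Sum.elim_inl, eval_add, eval_sub, eval_mul, eval_C, eval_X,
      eval_pow] at this
    intro h
    apply this
    linear_combination h

end Pool.Agent.H918R2
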