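import Mathlib
import Pool.Agent.H918R2.Real2

set_option autoImplicit false

open Polynomial
open Pool.Agent.Helper947.Crv

namespace Pool.Agent.H918R2

variable {k : Type*} [Field k]

/-- incidence of lines and points in the planar configuration, and two additional lines and an
additional point which are incident with everything -/
def incR {I L : Type*} (pt : I → Fin 3 → k) (ln : L → Fin 3 → k) : Fin 2 ⊕ L → Option I → Prop
  | Sum.inr l, some i => dt (ln l) (pt i) = 0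
  | _, _ => True

theorem bv_0_b0 : bv (0 : Matrix (Fin 2) (Fin 2) k) b0 = ![1, 0, 0, 0] := by
  simp [bv, b0]

theorem bv_0_bm (s : Fin 3 → k) : bv (0 : Matrix (Fin 2) (Fin 2) k) (bm s) =
    ![(s 2 ^ 2 + s 0 * s 1)⁻¹ * (s 0 * s 1), (s 2 ^ 2 + s 0 * s 1)⁻¹ * s 2 * s 0,
      (s 2 ^ 2 + s 0 * s 1)⁻¹ * s 2 * s 1, (s 2 ^ 2 + s 0 * s 1)⁻¹ * s 2 * s 2] := by
  ext a
  fin_cases a <;> simp [bv, bm] <;> ring

/-- four by four determinant -/
def d4 {R : Type*} [CommRing R] (r0 r1 r2 r3 : Fin 4 → R) : R :=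
      (r0 0 * r1 1 - r0 1 * r1 0) * (r2 2 * r3 3 - r2 3 * r3 2) -
      (r0 0 * r1 2 - r0 2 * r1 0) * (r2 1 * r3 3 - r2 3 * r3 1) +
      (r0 0 * r1 3 - r0 3 * r1 0) * (r2 1 * r3 2 - r2 2 * r3 1) +
      (r0 1 * r1 2 - r0 2 * r1 1) * (r2 0 * r3 3 - r2 3 * r3 0) -
      (r0 1 * r1 3 - r0 3 * r1 1) * (r2 0 * r3 2 - r2 2 * r3 0) +
      (r0 2 * r1 3 - r0 3 * r1 2) * (r2 0 * r3 1 - r2 1 * r3 0)

theorem det_eq_d4 {R : Type*} [CommRing R] (r0 r1 r2 r3 : Fin 4 → R) :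
    Matrix.det (Matrix.of ![r0, r1, r2, r3]) = d4 r0 r1 r2 r3 := by
  rw [Matrix.det_succ_row_zero]
  simp [Matrix.det_fin_three, Fin.sum_univ_succ, Fin.succAbove, Matrix.submatrix, d4]
  ring

theorem d4_map {R S : Type*} [CommRing R] [CommRing S] (φ : R →+* S) (r0 r1 r2 r3 : Fin 4 → R) :
    d4 (fun i => φ (r0 i)) (fun i => φ (r1 i)) (fun i => φ (r2 i)) (fun i => φ (r3 i)) =
      φ (d4 r0 r1 r2 r3) := by
  simp only [d4, map_add, map_sub, map_mul]

/-- planar configurations can be realized by lines in space -/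
theorem exists_planar [Infinite k] {I L : Type*} [Finite I] [Finite L] [Nonempty I]
    (pt : I → Fin 3 → k) (ln : L → Fin 3 → k) (hp0 : ∀ i, pt i ≠ 0) (hl0 : ∀ l, ln l ≠ 0)
    (hp : ∀ i j, i ≠ j → cr (pt i) (pt j) ≠ 0) :
    ∃ (A : Fin 2 ⊕ L → Matrix (Fin 2) (Fin 2) k) (B : Option I → Matrix (Fin 2) (Fin 2) k),
      (∀ j j', j ≠ j' → (A j - A j').det ≠ 0) ∧ (∀ i i', i ≠ i' → (B i - B i').det ≠ 0) ∧
      (∀ j i, (A j - B i).det = 0 ↔ incR pt ln j i) ∧ (∀ j i, A j ≠ B i) ∧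
      ∃ (c : k) (t : I → k), c ≠ 0 ∧ (∀ i, t i ≠ 0) ∧ ∀ a b d : I,
        d4 (bv (A (Sum.inl 0)) (B none)) (bv (A (Sum.inl 0)) (B (some a)))
          (bv (A (Sum.inl 0)) (B (some b))) (bv (A (Sum.inl 0)) (B (some d))) =
          c * (t a * t b * t d) * d3 (pt a) (pt b) (pt d) := by
  obtain ⟨eS, eR, eT, h1, h2, h3, h4, h5⟩ := exists_frame pt ln hp0 hl0 hp
  obtain ⟨m, hm1, hm2, hm3⟩ := exists_m (fun l => cw eS eR eT (ln l)) h2
  obtain ⟨s, hs⟩ : ∃ s : I → Fin 3 → k, ∀ i, s i = cs eS eR eT (pt i) := ⟨_, fun i => rfl⟩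
  obtain ⟨w, hw⟩ : ∃ w : L → Fin 3 → k, ∀ l, w l = cw eS eR eT (ln l) := ⟨_, fun i => rfl⟩
  have hw01 : ∀ l, w l 0 ≠ 0 ∧ w l 1 ≠ 0 := by
    intro l; rw [hw]; exact h2 l
  have hm2' : ∀ l, m l ^ 2 + w l 2 * m l - w l 0 * w l 1 ≠ 0 := by
    intro l; rw [hw]; exact hm2 l
  have hm3' : ∀ l l', l ≠ l' → m l * w l' 0 - m l' * w l 0 ≠ 0 ∧
      m l * w l' 1 - m l' * w l 1 ≠ 0 := by
    intro l l' hll; rw [hw, hw]; exact hm3 l l' hll
  have hs2 : ∀ i, s i 2 ≠ 0 := by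
    intro i; rw [hs]; exact h4 i
  have hsN : ∀ i, s i 2 ^ 2 + s i 0 * s i 1 ≠ 0 := by
    intro i; rw [hs]; exact h5 i
  have hs1 : ∀ i j, i ≠ j → s i 1 * s j 2 - s j 1 * s i 2 ≠ 0 := by
    intro i j hij
    rw [hs, hs, cs_mul1]
    exact mul_ne_zero h1 (h3 i j hij).1
  have hs0 : ∀ i j, i ≠ j → s i 0 * s j 2 - s j 0 * s i 2 ≠ 0 := by
    intro i j hij
    rw [hs, hs, cs_mul0, neg_ne_zero]
    exact mul_ne_zero h1 (h3 i j hij).2
  have hinc : ∀ l i, dt (w l) (s i) = d3 eS eR eT * dt (ln l) (pt i) := by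
    intro l i
    rw [hs, hw, dt_cw_cs]
  have hd3 : ∀ a b d, d3 (s a) (s b) (s d) = d3 eS eR eT ^ 2 * d3 (pt a) (pt b) (pt d) := by
    intro a b d
    rw [hs, hs, hs, d3_cs]
  clear hs hw h2 h3 h4 h5 hm2 hm3
  have hA0 : ∀ l, (am (w l) (m l) - 0).det ≠ 0 := by
    intro l
    rw [det_am_0 (hm2' l)]
    exact div_ne_zero (pow_ne_zero 2 (hm1 l)) (hm2' l)
  have hA1 : ∀ l, (am (w l) (m l) - 1).det ≠ 0 := by
    intro l
    rw [det_am_1 (hm2' l)]
    exact div_ne_zero (neg_ne_zero.2 (mul_ne_zero (hw01 l).1 (hw01 l).2)) (hm2' l)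
  have hAA : ∀ l l', l ≠ l' → (am (w l) (m l) - am (w l') (m l')).det ≠ 0 := by
    intro l l' hll
    rw [det_am_am (hm2' l) (hm2' l')]
    exact mul_ne_zero (neg_ne_zero.2 (mul_ne_zero (hm3' l l' hll).1 (hm3' l l' hll).2))
      (mul_ne_zero (inv_ne_zero (hm2' l)) (inv_ne_zero (hm2' l')))
  have hBB : ∀ i j, i ≠ j → (bm (s i) - bm (s j)).det ≠ 0 := by
    intro i j hij
    rw [det_bm_bm (hsN i) (hsN j)]
    exact div_ne_zero (neg_ne_zero.2 (mul_ne_zero (hs1 i j hij) (hs0 i j hij)))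
      (mul_ne_zero (hsN i) (hsN j))
  have hB0 : ∀ i, (b0 - bm (s i)).det ≠ 0 := by
    intro i
    rw [det_b0_bm (hsN i)]
    exact div_ne_zero (neg_ne_zero.2 (pow_ne_zero 2 (hs2 i))) (hsN i)
  have hAB : ∀ l i, (am (w l) (m l) - bm (s i)).det = 0 ↔ dt (ln l) (pt i) = 0 := by
    intro l i
    rw [det_am_bm (hm2' l) (hsN i), hinc]
    constructor
    · intro h
      by_contra hne
      exact mul_ne_zero (neg_ne_zero.2 (mul_ne_zero (mul_ne_zero (hm1 l) (mul_ne_zero h1 hne))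
        (hs2 i))) (mul_ne_zero (inv_ne_zero (hm2' l)) (inv_ne_zero (hsN i))) h
    · intro h
      rw [h]; simp
  have hcomm : ∀ X Y : Matrix (Fin 2) (Fin 2) k, (X - Y).det = (Y - X).det := by
    intro X Y
    rw [Matrix.det_fin_two, Matrix.det_fin_two]
    simp only [Matrix.sub_apply]
    ring
  obtain ⟨A, hA⟩ : ∃ A : Fin 2 ⊕ L → Matrix (Fin 2) (Fin 2) k,
    A = Sum.elim ![0, 1] (fun l => am (w l) (m l)) := ⟨_, rfl⟩
  obtain ⟨B, hB⟩ : ∃ B : Option I → Matrix (Fin 2) (Fin 2) k,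
    B = fun o => o.elim b0 (fun i => bm (s i)) := ⟨_, rfl⟩
  have hinc2 : ∀ j i, (A j - B i).det = 0 ↔ incR pt ln j i := by
    rw [hA, hB]
    rintro (j | l) (_ | i)
    · have h : incR pt ln (Sum.inl j) none := trivial
      simp only [h, iff_true]
      fin_cases j
      · exact det_0_b0
      · exact det_1_b0
    · have h : incR pt ln (Sum.inl j) (some i) := trivial
      simp only [h, iff_true]
      fin_cases j
      · exact det_0_bm (hsN i)
      · exact det_1_bm (hsN i)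
    · have h : incR pt ln (Sum.inr l) none := trivial
      simp only [h, iff_true]
      exact det_am_b0 (hm2' l)
    · exact hAB l i
  have hskA : ∀ j j', j ≠ j' → (A j - A j').det ≠ 0 := by
    rw [hA]
    rintro (j | l) (j' | l') hne
    · fin_cases j <;> fin_cases j'
      · exact absurd rfl hne
      · show ((0 : Matrix (Fin 2) (Fin 2) k) - 1).det ≠ 0
        rw [det_0_1]; exact one_ne_zero
      · show ((1 : Matrix (Fin 2) (Fin 2) k) - 0).det ≠ 0
        rw [hcomm, det_0_1]; exact one_ne_zero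
      · exact absurd rfl hne
    · rw [hcomm]
      fin_cases j
      · exact hA0 l'
      · exact hA1 l'
    · fin_cases j'
      · exact hA0 l
      · exact hA1 l
    · exact hAA l l' (fun h => hne (by rw [h]))
  have hskB : ∀ i i', i ≠ i' → (B i - B i').det ≠ 0 := by
    rw [hB]
    rintro (_ | i) (_ | j) hne
    · exact absurd rfl hne
    · exact hB0 j
    · rw [hcomm]; exact hB0 i
    · exact hBB i j (fun h => hne (by rw [h]))
  refine ⟨A, B, hskA, hskB, hinc2, ?_, d3 eS eR eT ^ 2,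
    fun i => (s i 2 ^ 2 + s i 0 * s i 1)⁻¹ * s i 2, pow_ne_zero 2 h1,
    fun i => mul_ne_zero (inv_ne_zero (hsN i)) (hs2 i), ?_⟩
  · intro j i hji
    -- `A j = B i` is impossible: `A j` is `0`, `1` or invertible; `B i` has rank one
    rcases j with j | l
    · have h0 := hskB
      have h1 : (A (Sum.inl 0) - A (Sum.inl 1)).det ≠ 0 := hskA _ _ (by simp)
      fin_cases j
      · apply h1
        change A (Sum.inl 0) = B i at hji
        rw [hji, hcomm]
        exact (hinc2 (Sum.inl 1) i).2 (by cases i <;> trivial)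
      · apply h1
        change A (Sum.inl 1) = B i at hji
        rw [hji]
        exact (hinc2 (Sum.inl 0) i).2 (by cases i <;> trivial)
    · have h1 : (A (Sum.inl 0) - A (Sum.inr l)).det ≠ 0 := hskA _ _ (by simp)
      apply h1
      rw [hji]
      exact (hinc2 (Sum.inl 0) i).2 (by cases i <;> trivial)
  · intro a b d
    have e0 : A (Sum.inl 0) = 0 := by rw [hA]; rfl
    have e1 : B none = b0 := by rw [hB]; rfl
    have e2 : ∀ i, B (some i) = bm (s i) := by intro i; rw [hB]; rfl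
    rw [e0, e1, e2, e2, e2, bv_0_b0, bv_0_bm, bv_0_bm, bv_0_bm]
    have e3 := hd3 a b d
    simp only [d3] at e3
    simp only [d4, d3, Matrix.cons_val_zero, Matrix.cons_val_one, Matrix.cons_val]
    linear_combination ((s a 2 ^ 2 + s a 0 * s a 1)⁻¹ * s a 2) *
      ((s b 2 ^ 2 + s b 0 * s b 1)⁻¹ * s b 2) * ((s d 2 ^ 2 + s d 0 * s d 1)⁻¹ * s d 2) * e3

end Pool.Agent.H918R2
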