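import Mathlib
import Pool.Agent.H918R2.Real3

set_option autoImplicit false

open Polynomial
open Pool.Agent.Helper947.Crv

namespace Pool.Agent.H918R2

/-- linear change of coordinates on lines -/
def trm {k : Type*} [CommRing k] (p q : k) (X : Matrix (Fin 2) (Fin 2) k) :
    Matrix (Fin 2) (Fin 2) k :=
  !![X 0 0 + p * X 1 0 + q * X 0 1 + p * q * X 1 1, X 0 1 + p * X 1 1; X 1 0 + q * X 1 1, X 1 1]

variable {k : Type*} [Field k]

theorem det_trm (p q : k) (X Y : Matrix (Fin 2) (Fin 2) k) :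
    (trm p q X - trm p q Y).det = (X - Y).det := by
  rw [Matrix.det_fin_two, Matrix.det_fin_two]
  simp only [trm, Matrix.sub_apply, Matrix.of_apply, Matrix.cons_val_zero,
    Matrix.cons_val_one, Matrix.cons_val', Matrix.empty_val', Matrix.cons_val_fin_one]
  ring

/-- first elementary change of coordinates -/
def fp {k : Type*} [CommRing k] (p : k) (x : Fin 4 → k) : Fin 4 → k :=
  ![x 0 + p * x 2, x 1 + p * x 3, x 2, x 3]

/-- second elementary change of coordinates -/
def fq {k : Type*} [CommRing k] (p : k) (x : Fin 4 → k) : Fin 4 → k :=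
  ![x 0 + p * x 1, x 1, x 2 + p * x 3, x 3]

theorem d4_p (p : k) (x y z w : Fin 4 → k) :
    d4 (fp p x) (fp p y) (fp p z) (fp p w) = d4 x y z w := by
  simp only [d4, fp, Matrix.cons_val_zero, Matrix.cons_val_one, Matrix.cons_val]
  ring

theorem d4_q (p : k) (x y z w : Fin 4 → k) :
    d4 (fq p x) (fq p y) (fq p z) (fq p w) = d4 x y z w := by
  simp only [d4, fq, Matrix.cons_val_zero, Matrix.cons_val_one, Matrix.cons_val]
  ring

theorem bv_trm (p q : k) (X Y : Matrix (Fin 2) (Fin 2) k) :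
    bv (trm p q X) (trm p q Y) = fq q (fp p (bv X Y)) := by
  ext a
  fin_cases a <;> simp [bv, trm, fp, fq] <;> ring

theorem d4_trm (p q : k) (X Y0 Y1 Y2 Y3 : Matrix (Fin 2) (Fin 2) k) :
    d4 (bv (trm p q X) (trm p q Y0)) (bv (trm p q X) (trm p q Y1)) (bv (trm p q X) (trm p q Y2))
      (bv (trm p q X) (trm p q Y3)) = d4 (bv X Y0) (bv X Y1) (bv X Y2) (bv X Y3) := by
  rw [bv_trm, bv_trm, bv_trm, bv_trm, d4_q, d4_p]

theorem exists_trm [Infinite k] {J M : Type*} [Finite J] [Finite M]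
    (A : J → Matrix (Fin 2) (Fin 2) k) (B : M → Matrix (Fin 2) (Fin 2) k)
    (hne : ∀ j i, A j ≠ B i) :
    ∃ p q : k, ∀ j i, (trm p q (A j) - trm p q (B i)) 0 0 ≠ 0 := by
  obtain ⟨t, ht⟩ := exists_eval_ne (ι := J × M) (fun x => C ((A x.1 - B x.2) 0 0) +
    C ((A x.1 - B x.2) 1 0) * X + C ((A x.1 - B x.2) 0 1) * X ^ 2 +
    C ((A x.1 - B x.2) 1 1) * X ^ 3 : J × M → k[X]) (by
      intro x h
      have h0 := congrArg (fun f => f.coeff 0) h
      have h1 := congrArg (fun f => f.coeff 1) h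
      have h2 := congrArg (fun f => f.coeff 2) h
      have h3 := congrArg (fun f => f.coeff 3) h
      simp only [coeff_add, coeff_C_mul, coeff_X, coeff_C, coeff_X_pow, coeff_zero] at h0 h1 h2 h3
      norm_num at h0 h1 h2 h3
      apply hne x.1 x.2
      ext a b
      fin_cases a <;> fin_cases b
      · exact sub_eq_zero.1 h0
      · exact sub_eq_zero.1 h2
      · exact sub_eq_zero.1 h1
      · exact sub_eq_zero.1 h3)
  refine ⟨t, t ^ 2, fun j i h => ?_⟩
  apply ht (j, i)
  rw [← h]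
  simp only [trm, Matrix.sub_apply, Matrix.of_apply, Matrix.cons_val_zero,
    Matrix.cons_val_one, Matrix.cons_val', Matrix.empty_val', Matrix.cons_val_fin_one,
    eval_add, eval_mul, eval_C, eval_X, eval_pow]
  ring

end Pool.Agent.H918R2
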