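import Mathlib
import Pool.Agent.H918R2.Real4
import Pool.Agent.Helper947.Crv.E6
import Pool.Agent.Helper947.Crv.F1
import Pool.Agent.Helper947.Crv.F5
import Pool.Agent.Helper947.Crv.F6

set_option autoImplicit false

open MvPolynomial Filter
open Pool.Agent.Helper947.Crv

namespace Pool.Agent.H918R2

theorem det_map_sub' {R S : Type*} [CommRing R] [CommRing S] (φ : R →+* S)
    (A B : Matrix (Fin 2) (Fin 2) R) : (A.map φ - B.map φ).det = φ ((A - B).det) := by
  simp [Matrix.det_fin_two]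

theorem bv_map' {R S : Type*} [CommRing R] [CommRing S] (φ : R →+* S)
    (A B : Matrix (Fin 2) (Fin 2) R) : bv (A.map φ) (B.map φ) = fun x => φ (bv A B x) := by
  funext x
  fin_cases x <;> simp [bv, Matrix.sub_apply, Matrix.map_apply]

/-- lines in a deformation of a good configuration -/
theorem lift_gen {K : Type*} [Field K] [IsAlgClosed K] (V : ValuationSubring K) {k : Type*}
    [Field k] (θ : k →+* IsLocalRing.ResidueField V) {J M : Type} [Fintype J] [Fintype M]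
    {c : Cfg k J M} {e : ℕ} {E : Finset (J × M)} (hc : c.Good e E) (he : 2 * E.card + 1 < e)
    {I : Ideal (Pl K)} (hI : Hom I)
    (h : ∀ᶠ m in atTop, ∀ p ∈ Fm _ m, p ∈ red V I ↔ p ∈ (c.map θ).J0) :
    ∃ (A : J → Matrix (Fin 2) (Fin 2) V) (B : M → Matrix (Fin 2) (Fin 2) V),
      (∀ j, (A j).map (IsLocalRing.residue V) = (c.A j).map θ) ∧
      (∀ i, (B i).map (IsLocalRing.residue V) = (c.B i).map θ) ∧
      (∀ j j', j ≠ j' → (A j - A j').det ≠ 0) ∧ (∀ i i', i ≠ i' → (B i - B i').det ≠ 0) ∧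
      (∀ j i, (A j - B i).det = 0 ↔ (j, i) ∈ E) ∧ (∀ j i, A j ≠ B i) ∧
      ∀ C : Matrix (Fin 2) (Fin 2) K, (∀ᶠ m in atTop, ∀ p ∈ Fm K m, p ∈ I → p ∈ Lam C) ↔
        (∃ j, C = (A j).map V.subtype) ∨ ∃ i, C = (B i).map V.subtype := by
  have hgood : (c.map θ).Good e E := Good.map hc θ
  obtain ⟨A, B, hA, hB, hdet, hC⟩ := core V hgood he hI h
  refine ⟨A, B, hA, hB, ?_, ?_, ?_, ?_, hC⟩
  · intro j j' hj hcon
    have h3 := hgood.skewA j j' hj
    rw [← hA j, ← hA j', det_map_sub', hcon, map_zero] at h3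
    exact h3 rfl
  · intro j j' hj hcon
    have h3 := hgood.skewB j j' hj
    rw [← hB j, ← hB j', det_map_sub', hcon, map_zero] at h3
    exact h3 rfl
  · intro j i
    refine ⟨fun h1 => ?_, hdet j i⟩
    rw [← hgood.inc, ← hA, ← hB, det_map_sub', h1, map_zero]
  · intro j i h1
    apply hgood.ne j i
    rw [← hA, ← hB, h1]

theorem d4_lift {K : Type*} [Field K] (V : ValuationSubring K)
    {A0 A1 A2 : Matrix (Fin 2) (Fin 2) V} (h01 : (A0 - A1).det ≠ 0)
    (h02 : A2 ≠ A0) (h12 : A2 ≠ A1) (B0 B1 B2 B3 : Matrix (Fin 2) (Fin 2) V)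
    (h0 : (A0 - B0).det = 0 ∧ (A1 - B0).det = 0 ∧ (A2 - B0).det = 0)
    (h1 : (A0 - B1).det = 0 ∧ (A1 - B1).det = 0 ∧ (A2 - B1).det = 0)
    (h2 : (A0 - B2).det = 0 ∧ (A1 - B2).det = 0 ∧ (A2 - B2).det = 0)
    (h3 : (A0 - B3).det = 0 ∧ (A1 - B3).det = 0 ∧ (A2 - B3).det = 0) :
    d4 (bv A0 B0) (bv A0 B1) (bv A0 B2) (bv A0 B3) = 0 := by
  have hinj : Function.Injective V.subtype := Subtype.val_injective
  have hmi : ∀ X Y : Matrix (Fin 2) (Fin 2) V, X.map V.subtype = Y.map V.subtype → X = Y := by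
    intro X Y h1
    ext a b
    exact congrArg (fun M => M a b) h1
  have hz : ∀ X Y : Matrix (Fin 2) (Fin 2) V, (X - Y).det = 0 →
      (X.map V.subtype - Y.map V.subtype).det = 0 := by
    intro X Y h
    rw [det_map_sub', h, map_zero]
  have key := bracket_zero (A0 := A0.map V.subtype) (A1 := A1.map V.subtype)
    (A2 := A2.map V.subtype) (by rw [det_map_sub']; exact fun h => h01 (hinj (by rw [h, map_zero])))
    (fun h => h02 (hmi _ _ h)) (fun h => h12 (hmi _ _ h))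
    ![B0.map V.subtype, B1.map V.subtype, B2.map V.subtype, B3.map V.subtype]
    (by
      intro s; fin_cases s
      · exact hz _ _ h0.1
      · exact hz _ _ h1.1
      · exact hz _ _ h2.1
      · exact hz _ _ h3.1)
    (by
      intro s; fin_cases s
      · exact hz _ _ h0.2.1
      · exact hz _ _ h1.2.1
      · exact hz _ _ h2.2.1
      · exact hz _ _ h3.2.1)
    (by
      intro s; fin_cases s
      · exact hz _ _ h0.2.2
      · exact hz _ _ h1.2.2
      · exact hz _ _ h2.2.2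
      · exact hz _ _ h3.2.2)
  have key2 : Matrix.det (Matrix.of ![bv (A0.map V.subtype) (B0.map V.subtype),
      bv (A0.map V.subtype) (B1.map V.subtype), bv (A0.map V.subtype) (B2.map V.subtype),
      bv (A0.map V.subtype) (B3.map V.subtype)]) = 0 := key
  rw [det_eq_d4, bv_map', bv_map', bv_map', bv_map', d4_map] at key2
  exact hinj (by rw [key2, map_zero])

theorem proj3 {ι K : Type*} [Field K] (v0 : Fin 4 → K) (v : ι → Fin 4 → K) (x0 y0 z0 : ι)
    (h : d4 v0 (v x0) (v y0) (v z0) ≠ 0) : ∃ u : ι → Fin 3 → K,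
      (∀ a b c, d4 v0 (v a) (v b) (v c) = d3 (u a) (u b) (u c) * d4 v0 (v x0) (v y0) (v z0)) ∧
      u x0 = ![1, 0, 0] ∧ u y0 = ![0, 1, 0] ∧ u z0 = ![0, 0, 1] := by
  obtain ⟨P, hP⟩ : ∃ P : Matrix (Fin 4) (Fin 4) K, P = Matrix.of ![v0, v x0, v y0, v z0] :=
    ⟨_, rfl⟩
  have hdet : P.det ≠ 0 := by rw [hP, det_eq_d4]; exact h
  have hunit : IsUnit P.det := isUnit_iff_ne_zero.mpr hdet
  obtain ⟨u, hu⟩ : ∃ u : ι → Fin 4 → K, ∀ i, u i = Matrix.vecMul (v i) P⁻¹ := ⟨_, fun i => rfl⟩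
  have huP : ∀ i, Matrix.vecMul (u i) P = v i := by
    intro i
    rw [hu, Matrix.vecMul_vecMul, Matrix.nonsing_inv_mul P hunit, Matrix.vecMul_one]
  have hrow : ∀ (k : Fin 4), Matrix.vecMul (P k) P⁻¹ = Pi.single k 1 := by
    intro k
    have h1 : P k = Matrix.vecMul (Pi.single k 1) P := by
      rw [Matrix.single_one_vecMul]
      rfl
    rw [h1, Matrix.vecMul_vecMul, Matrix.mul_nonsing_inv P hunit, Matrix.vecMul_one]
  have u1 : u x0 = Pi.single 1 1 := by
    rw [hu, ← hrow 1, hP]; rfl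
  have u2 : u y0 = Pi.single 2 1 := by
    rw [hu, ← hrow 2, hP]; rfl
  have u3 : u z0 = Pi.single 3 1 := by
    rw [hu, ← hrow 3, hP]; rfl
  refine ⟨fun i => ![u i 1, u i 2, u i 3], ?_, ?_, ?_, ?_⟩
  · intro a b c
    have e0 : Matrix.vecMul (Pi.single 0 1) P = v0 := by
      rw [Matrix.single_one_vecMul, hP]; rfl
    have e : Matrix.of ![v0, v a, v b, v c] = Matrix.of ![Pi.single 0 1, u a, u b, u c] * P := by
      ext i j
      rw [← e0, ← huP a, ← huP b, ← huP c]
      fin_cases i <;> rfl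
    rw [← det_eq_d4, ← det_eq_d4, e, Matrix.det_mul, ← hP, det_eq_d4]
    congr 1
    simp only [d4, d3, Matrix.cons_val_zero, Matrix.cons_val_one, Matrix.cons_val,
      Pi.single_eq_same]
    rw [Pi.single_eq_of_ne (by decide), Pi.single_eq_of_ne (by decide),
      Pi.single_eq_of_ne (by decide)]
    ring
  · simp only [u1]
    ext a
    fin_cases a <;> simp
  · simp only [u2]
    ext a
    fin_cases a <;> simp
  · simp only [u3]
    ext a
    fin_cases a <;> simp

end Pool.Agent.H918R2
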