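import Mathlib
import Pool.Agent.H918R2.Lift1

set_option autoImplicit false

open MvPolynomial Filter
open Pool.Agent.Helper947.Crv

namespace Pool.Agent.H918R2

/-- good configurations in space given by planar configurations -/
theorem exists_cfg {k : Type*} [Field k] [Infinite k] {I L : Type} [Fintype I] [Fintype L]
    [DecidableEq I] [DecidableEq L] [Nonempty I]
    (pt : I → Fin 3 → k) (ln : L → Fin 3 → k) (hp0 : ∀ i, pt i ≠ 0) (hl0 : ∀ l, ln l ≠ 0)
    (hp : ∀ i j, i ≠ j → cr (pt i) (pt j) ≠ 0) (E : Finset ((Fin 2 ⊕ L) × Option I))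
    (hE : ∀ j i, (j, i) ∈ E ↔ incR pt ln j i) {e : ℕ} (he : Fintype.card (Option I) < e) :
    ∃ cfg : Cfg k (Fin 2 ⊕ L) (Option I), cfg.Good e E ∧
      ∃ (c : k) (t : I → k), c ≠ 0 ∧ (∀ i, t i ≠ 0) ∧ ∀ a b d : I,
        d4 (bv (cfg.A (Sum.inl 0)) (cfg.B none)) (bv (cfg.A (Sum.inl 0)) (cfg.B (some a)))
          (bv (cfg.A (Sum.inl 0)) (cfg.B (some b))) (bv (cfg.A (Sum.inl 0)) (cfg.B (some d))) =
          c * (t a * t b * t d) * d3 (pt a) (pt b) (pt d) := by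
  obtain ⟨A, B, h1, h2, h3, h4, c, t, hc, ht, h5⟩ := exists_planar pt ln hp0 hl0 hp
  obtain ⟨p, q, hpq⟩ := exists_trm A B h4
  refine ⟨mkCfg (fun j => trm p q (A j)) (fun i => trm p q (B i)) E e, ?_, c, t, hc, ht, ?_⟩
  · refine good_of _ _ _ he ?_ ?_ ?_ ?_
    · intro j j' hj
      rw [det_trm]
      exact h1 j j' hj
    · intro j j' hj
      rw [det_trm]
      exact h2 j j' hj
    · intro j i
      rw [det_trm, hE, h3]
    · intro j i _
      exact hpq j i
  · intro a b d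
    rw [← h5 a b d]
    exact d4_trm p q _ _ _ _ _

/-- lifts of planar configurations -/
theorem planar_lift {k : Type*} [Field k] {I L : Type} [Fintype I] [Fintype L]
    [DecidableEq I] [DecidableEq L]
    (pt : I → Fin 3 → k) (ln : L → Fin 3 → k) (E : Finset ((Fin 2 ⊕ L) × Option I))
    (hE : ∀ j i, (j, i) ∈ E ↔ incR pt ln j i) {e : ℕ} (he : 2 * E.card + 1 < e)
    {cfg : Cfg k (Fin 2 ⊕ L) (Option I)} (hg : cfg.Good e E) {c : k} {t : I → k}
    (hd : ∀ a b d : I,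
      d4 (bv (cfg.A (Sum.inl 0)) (cfg.B none)) (bv (cfg.A (Sum.inl 0)) (cfg.B (some a)))
          (bv (cfg.A (Sum.inl 0)) (cfg.B (some b))) (bv (cfg.A (Sum.inl 0)) (cfg.B (some d))) =
          c * (t a * t b * t d) * d3 (pt a) (pt b) (pt d))
    {K : Type*} [Field K] [IsAlgClosed K] (V : ValuationSubring K)
    (θ : k →+* IsLocalRing.ResidueField V) {I0 : Ideal (Pl K)} (hI : Hom I0)
    (h : ∀ᶠ m in atTop, ∀ p ∈ Fm _ m, p ∈ red V I0 ↔ p ∈ (cfg.map θ).J0) :
    ∃ (w0 : Fin 4 → V) (w : I → Fin 4 → V),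
      (∀ x y z : I, (∃ l, dt (ln l) (pt x) = 0 ∧ dt (ln l) (pt y) = 0 ∧ dt (ln l) (pt z) = 0) →
        d4 w0 (w x) (w y) (w z) = 0) ∧
      ∀ x y z : I, IsLocalRing.residue V (d4 w0 (w x) (w y) (w z)) =
        θ (c * (t x * t y * t z) * d3 (pt x) (pt y) (pt z)) := by
  obtain ⟨A, B, hA, hB, h1, h2, h3, h4, h5⟩ := lift_gen V θ hg he hI h
  have hAne : ∀ j j', j ≠ j' → A j ≠ A j' := by
    intro j j' hj hh
    apply h1 j j' hj
    rw [hh, sub_self, Matrix.det_zero]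
  refine ⟨bv (A (Sum.inl 0)) (B none), fun i => bv (A (Sum.inl 0)) (B (some i)), ?_, ?_⟩
  · rintro x y z ⟨l, hx, hy, hz⟩
    have hs : ∀ i : I, dt (ln l) (pt i) = 0 → (A (Sum.inl 0) - B (some i)).det = 0 ∧
        (A (Sum.inl 1) - B (some i)).det = 0 ∧ (A (Sum.inr l) - B (some i)).det = 0 := by
      intro i hi
      refine ⟨?_, ?_, ?_⟩
      · rw [h3, hE]; trivial
      · rw [h3, hE]; trivial
      · rw [h3, hE]; exact hi
    have hn : (A (Sum.inl 0) - B none).det = 0 ∧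
        (A (Sum.inl 1) - B none).det = 0 ∧ (A (Sum.inr l) - B none).det = 0 := by
      refine ⟨?_, ?_, ?_⟩
      · rw [h3, hE]; trivial
      · rw [h3, hE]; trivial
      · rw [h3, hE]; trivial
    exact d4_lift V (h1 (Sum.inl 0) (Sum.inl 1) (by simp)) (hAne (Sum.inr l) (Sum.inl 0) (by simp))
      (hAne (Sum.inr l) (Sum.inl 1) (by simp)) _ _ _ _ hn (hs x hx) (hs y hy) (hs z hz)
  · intro x y z
    have e1 : ∀ o : Option I, (fun s => IsLocalRing.residue V (bv (A (Sum.inl 0)) (B o) s)) =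
        (fun s => θ (bv (cfg.A (Sum.inl 0)) (cfg.B o) s)) := by
      intro o
      rw [← bv_map', ← bv_map', hA, hB]
    rw [← d4_map]
    have e2 := fun i : I => e1 (some i)
    dsimp only
    rw [e1 none, e1 (some x), e1 (some y), e1 (some z), d4_map, hd]

end Pool.Agent.H918R2
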