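import Mathlib
import Pool.Agent.H918R2.Lift2

set_option autoImplicit false

open Pool.Agent.Helper947.Crv

namespace Pool.Agent.H918R2

/-- index set of the points: `a_i = (i : 0 : 1)`, `b_i = (i : 1 : 1)` and the points
`(1 : 0 : 0)`, `(0 : 1 : 0)`, `(1 : 1 : 0)` at infinity -/
abbrev IP (p : ℕ) : Type := ZMod p ⊕ (ZMod p ⊕ Fin 3)

/-- index set of the lines: the line at infinity, `y = 0`, `y = 1`, the lines `x = i` and the lines
`y = x - i` -/
abbrev LP (p : ℕ) : Type := Fin 3 ⊕ (ZMod p ⊕ ZMod p)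

section defs

variable {R : Type*} [CommRing R] {p : ℕ}

/-- coordinates of the points -/
def ptP (φ : ZMod p →+* R) : IP p → Fin 3 → R
  | Sum.inl i => ![φ i, 0, 1]
  | Sum.inr (Sum.inl i) => ![φ i, 1, 1]
  | Sum.inr (Sum.inr 0) => ![1, 0, 0]
  | Sum.inr (Sum.inr 1) => ![0, 1, 0]
  | Sum.inr (Sum.inr 2) => ![1, 1, 0]

/-- coordinates of the lines -/
def lnP (φ : ZMod p →+* R) : LP p → Fin 3 → R
  | Sum.inl 0 => ![0, 0, 1]
  | Sum.inl 1 => ![0, 1, 0]
  | Sum.inl 2 => ![0, 1, -1]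
  | Sum.inr (Sum.inl i) => ![1, 0, - φ i]
  | Sum.inr (Sum.inr i) => ![1, -1, - φ i]

end defs

variable {k : Type*} [Field k] {p : ℕ} [Fact p.Prime]

theorem ptP_ne (φ : ZMod p →+* k) : ∀ i, ptP φ i ≠ 0 := by
  rintro (i | (i | i)) h
  · have := congrFun h 2; simp [ptP] at this
  · have := congrFun h 2; simp [ptP] at this
  · fin_cases i
    · have := congrFun h 0; simp [ptP] at this
    · have := congrFun h 1; simp [ptP] at this
    · have := congrFun h 0; simp [ptP] at this

theorem lnP_ne (φ : ZMod p →+* k) : ∀ i, lnP φ i ≠ 0 := by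
  rintro (i | (i | i)) h
  · fin_cases i
    · have := congrFun h 2; simp [lnP] at this
    · have := congrFun h 1; simp [lnP] at this
    · have := congrFun h 1; simp [lnP] at this
  · have := congrFun h 0; simp [lnP] at this
  · have := congrFun h 0; simp [lnP] at this

theorem cr_ptP (φ : ZMod p →+* k) : ∀ i j, i ≠ j → cr (ptP φ i) (ptP φ j) ≠ 0 := by
  have hφ : ∀ i j : ZMod p, i ≠ j → φ i - φ j ≠ 0 := fun i j h h' =>
    h (φ.injective (sub_eq_zero.1 h'))
  rintro (i | (i | i)) (j | (j | j)) hij h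
  · have := congrFun h 1
    simp [ptP, cr] at this
    apply hφ j i (by rintro rfl; exact hij rfl)
    linear_combination this
  · have := congrFun h 0
    simp [ptP, cr] at this
  · fin_cases j
    · have := congrFun h 1; simp [ptP, cr] at this
    · have := congrFun h 0; simp [ptP, cr] at this
    · have := congrFun h 0; simp [ptP, cr] at this
  · have := congrFun h 0
    simp [ptP, cr] at this
  · have := congrFun h 1
    simp [ptP, cr] at this
    apply hφ j i (by rintro rfl; exact hij rfl)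
    linear_combination this
  · fin_cases j
    · have := congrFun h 1; simp [ptP, cr] at this
    · have := congrFun h 0; simp [ptP, cr] at this
    · have := congrFun h 0; simp [ptP, cr] at this
  · fin_cases i
    · have := congrFun h 1; simp [ptP, cr] at this
    · have := congrFun h 0; simp [ptP, cr] at this
    · have := congrFun h 0; simp [ptP, cr] at this
  · fin_cases i
    · have := congrFun h 1; simp [ptP, cr] at this
    · have := congrFun h 0; simp [ptP, cr] at this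
    · have := congrFun h 0; simp [ptP, cr] at this
  · have hij' : i ≠ j := by rintro rfl; exact hij rfl
    have h2 := congrFun h 2
    fin_cases i <;> fin_cases j <;> simp [ptP, cr] at h2 hij'

/-- the planar configuration forces characteristic `p` -/
theorem planar_charP {K : Type*} [Field K] (φ : ZMod p →+* k) (u : IP p → Fin 3 → K)
    (hz : ∀ x y z, (∃ l, dt (lnP φ l) (ptP φ x) = 0 ∧ dt (lnP φ l) (ptP φ y) = 0 ∧
      dt (lnP φ l) (ptP φ z) = 0) → d3 (u x) (u y) (u z) = 0)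
    (hn : ∀ x y z, d3 (ptP φ x) (ptP φ y) (ptP φ z) ≠ 0 → d3 (u x) (u y) (u z) ≠ 0)
    (h0 : u (Sum.inr (Sum.inr 0)) = ![1, 0, 0]) (h1 : u (Sum.inr (Sum.inr 1)) = ![0, 1, 0])
    (h2 : u (Sum.inl 0) = ![0, 0, 1]) : (p : K) = 0 := by
  obtain ⟨a, ha⟩ : ∃ a : ZMod p → Fin 3 → K, ∀ i, a i = u (Sum.inl i) := ⟨_, fun i => rfl⟩
  obtain ⟨b, hb⟩ : ∃ b : ZMod p → Fin 3 → K, ∀ i, b i = u (Sum.inr (Sum.inl i)) :=
    ⟨_, fun i => rfl⟩
  obtain ⟨d, hd⟩ : ∃ d : Fin 3 → K, d = u (Sum.inr (Sum.inr 2)) := ⟨_, rfl⟩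
  have a1 : ∀ i, a i 1 = 0 := by
    intro i
    have := hz (Sum.inr (Sum.inr 0)) (Sum.inl 0) (Sum.inl i)
      ⟨Sum.inl 1, by simp [dt, lnP, ptP], by simp [dt, lnP, ptP], by simp [dt, lnP, ptP]⟩
    rw [h0, h2, ← ha] at this
    simp [d3] at this
    exact this
  have a2 : ∀ i, a i 2 ≠ 0 := by
    intro i
    have := hn (Sum.inr (Sum.inr 0)) (Sum.inr (Sum.inr 1)) (Sum.inl i) (by simp [d3, ptP])
    rw [h0, h1, ← ha] at this
    simp [d3] at this
    exact this
  have d2 : d 2 = 0 := by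
    have := hz (Sum.inr (Sum.inr 0)) (Sum.inr (Sum.inr 1)) (Sum.inr (Sum.inr 2))
      ⟨Sum.inl 0, by simp [dt, lnP, ptP], by simp [dt, lnP, ptP], by simp [dt, lnP, ptP]⟩
    rw [h0, h1, ← hd] at this
    simp [d3] at this
    exact this
  have d1 : d 1 ≠ 0 := by
    have := hn (Sum.inr (Sum.inr 0)) (Sum.inl 0) (Sum.inr (Sum.inr 2)) (by simp [d3, ptP])
    rw [h0, h2, ← hd] at this
    simp [d3] at this
    exact this
  have d0 : d 0 ≠ 0 := by
    have := hn (Sum.inr (Sum.inr 1)) (Sum.inl 0) (Sum.inr (Sum.inr 2)) (by simp [d3, ptP])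
    rw [h1, h2, ← hd] at this
    simp [d3] at this
    exact this
  have b2 : ∀ i, b i 2 ≠ 0 := by
    intro i
    have := hn (Sum.inr (Sum.inr 0)) (Sum.inr (Sum.inr 1)) (Sum.inr (Sum.inl i))
      (by simp [d3, ptP])
    rw [h0, h1, ← hb] at this
    simp [d3] at this
    exact this
  have b1 : ∀ i, b i 1 ≠ 0 := by
    intro i
    have := hn (Sum.inr (Sum.inr 0)) (Sum.inl 0) (Sum.inr (Sum.inl i)) (by simp [d3, ptP])
    rw [h0, h2, ← hb] at this
    simp [d3] at this
    exact this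
  have bb : ∀ i, b 0 1 * b i 2 = b 0 2 * b i 1 := by
    intro i
    have := hz (Sum.inr (Sum.inr 0)) (Sum.inr (Sum.inl 0)) (Sum.inr (Sum.inl i))
      ⟨Sum.inl 2, by simp [dt, lnP, ptP], by simp [dt, lnP, ptP], by simp [dt, lnP, ptP]⟩
    rw [h0, ← hb, ← hb] at this
    simp [d3] at this
    linear_combination this
  have ab : ∀ i, a i 0 * b i 2 = a i 2 * b i 0 := by
    intro i
    have := hz (Sum.inr (Sum.inr 1)) (Sum.inl i) (Sum.inr (Sum.inl i))
      ⟨Sum.inr (Sum.inl i), by simp [dt, lnP, ptP], by simp [dt, lnP, ptP],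
        by simp [dt, lnP, ptP]⟩
    rw [h1, ← hb, ← ha] at this
    simp [d3] at this
    linear_combination - this
  have abd : ∀ i, d 0 * (a i 1 * b (i + 1) 2 - a i 2 * b (i + 1) 1) -
      d 1 * (a i 0 * b (i + 1) 2 - a i 2 * b (i + 1) 0) = 0 := by
    intro i
    have := hz (Sum.inr (Sum.inr 2)) (Sum.inl i) (Sum.inr (Sum.inl (i + 1)))
      ⟨Sum.inr (Sum.inr i), by simp [dt, lnP, ptP], by simp [dt, lnP, ptP],
        by simp [dt, lnP, ptP]⟩
    rw [← hb, ← ha, ← hd] at this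
    simp only [d3, d2] at this
    linear_combination this
  -- slopes
  obtain ⟨α, hα⟩ : ∃ α : ZMod p → K, ∀ i, α i = a i 0 / a i 2 := ⟨_, fun i => rfl⟩
  have hαb : ∀ i, α i = b i 0 / b i 2 := by
    intro i
    rw [hα, div_eq_div_iff (a2 i) (b2 i)]
    linear_combination ab i
  obtain ⟨κ, hκ⟩ : ∃ κ : K, κ = d 0 / d 1 * (b 0 1 / b 0 2) := ⟨_, rfl⟩
  have hκ0 : κ ≠ 0 := by
    rw [hκ]
    exact mul_ne_zero (div_ne_zero d0 d1) (div_ne_zero (b1 0) (b2 0))
  have hstep : ∀ i, α (i + 1) = α i + κ := by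
    intro i
    have e1 : b 0 1 / b 0 2 = b (i + 1) 1 / b (i + 1) 2 := by
      rw [div_eq_div_iff (b2 0) (b2 _)]
      linear_combination bb (i + 1)
    rw [hκ, e1, hαb (i + 1), hα i]
    have e2 := abd i
    rw [a1] at e2
    have e3 := a2 i
    have e4 := b2 (i + 1)
    field_simp
    linear_combination e2
  have hind : ∀ n : ℕ, α (n : ZMod p) = α 0 + n * κ := by
    intro n
    induction n with
    | zero => simp
    | succ n ih =>
      push_cast
      rw [hstep, ih]
      ring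
  have h3 := hind p
  rw [ZMod.natCast_self] at h3
  have h4 : (p : K) * κ = 0 := by linear_combination - h3
  exact (mul_eq_zero.1 h4).resolve_right hκ0

end Pool.Agent.H918R2
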