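import Mathlib
import Pool.Agent.H918R2.CharP1

set_option autoImplicit false

open MvPolynomial Filter
open Pool.Agent.Helper947.Crv

namespace Pool.Agent.H918R2

/-- incidence table of the planar configuration -/
def incT {p : ℕ} : LP p → IP p → Prop
  | Sum.inl 0, Sum.inr (Sum.inr _) => True
  | Sum.inl 1, Sum.inl _ => True
  | Sum.inl 1, Sum.inr (Sum.inr 0) => True
  | Sum.inl 2, Sum.inr (Sum.inl _) => True
  | Sum.inl 2, Sum.inr (Sum.inr 0) => True
  | Sum.inr (Sum.inl i), Sum.inl j => j = i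
  | Sum.inr (Sum.inl i), Sum.inr (Sum.inl j) => j = i
  | Sum.inr (Sum.inl _), Sum.inr (Sum.inr 1) => True
  | Sum.inr (Sum.inr i), Sum.inl j => j = i
  | Sum.inr (Sum.inr i), Sum.inr (Sum.inl j) => j = i + 1
  | Sum.inr (Sum.inr _), Sum.inr (Sum.inr 2) => True
  | _, _ => False

/-- incidence of lines and points in space -/
def incS {p : ℕ} : Fin 2 ⊕ LP p → Option (IP p) → Prop
  | Sum.inr l, some i => incT l i
  | _, _ => True

open Classical in
/-- pairs of a double line and a simple line which meet -/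
noncomputable def EP (p : ℕ) [NeZero p] : Finset ((Fin 2 ⊕ LP p) × Option (IP p)) :=
  Finset.univ.filter fun x => incS x.1 x.2

theorem incT_iff {k : Type*} [Field k] {p : ℕ} [Fact p.Prime] (φ : ZMod p →+* k) (l : LP p)
    (i : IP p) : dt (lnP φ l) (ptP φ i) = 0 ↔ incT l i := by
  have hφ : ∀ i j : ZMod p, φ i - φ j = 0 ↔ i = j := fun i j =>
    ⟨fun h => φ.injective (sub_eq_zero.1 h), fun h => by rw [h, sub_self]⟩
  rcases l with l | (l | l) <;> rcases i with i | (i | i)
  · fin_cases l <;> simp [dt, lnP, ptP, incT]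
  · fin_cases l <;> simp [dt, lnP, ptP, incT]
  · fin_cases l <;> fin_cases i <;> simp [dt, lnP, ptP, incT]
  · simp only [dt, lnP, ptP, incT, Matrix.cons_val_zero, Matrix.cons_val_one, Matrix.cons_val]
    rw [← hφ]
    constructor <;> intro h <;> linear_combination h
  · simp only [dt, lnP, ptP, incT, Matrix.cons_val_zero, Matrix.cons_val_one, Matrix.cons_val]
    rw [← hφ]
    constructor <;> intro h <;> linear_combination h
  · fin_cases i <;> simp [dt, lnP, ptP, incT]
  · simp only [dt, lnP, ptP, incT, Matrix.cons_val_zero, Matrix.cons_val_one, Matrix.cons_val]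
    rw [← hφ]
    constructor <;> intro h <;> linear_combination h
  · simp only [dt, lnP, ptP, incT, Matrix.cons_val_zero, Matrix.cons_val_one, Matrix.cons_val]
    rw [← hφ, map_add, map_one]
    constructor <;> intro h <;> linear_combination h
  · fin_cases i <;> simp [dt, lnP, ptP, incT]

theorem mem_EP {k : Type*} [Field k] {p : ℕ} [Fact p.Prime] (φ : ZMod p →+* k)
    (j : Fin 2 ⊕ LP p) (i : Option (IP p)) :
    (j, i) ∈ EP p ↔ incR (ptP φ) (lnP φ) j i := by
  simp only [EP, Finset.mem_filter, Finset.mem_univ, true_and]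
  rcases j with j | l <;> rcases i with _ | i
  · exact Iff.rfl
  · exact Iff.rfl
  · exact Iff.rfl
  · exact (incT_iff φ l i).symm

/-- incidence numbers of the planar configuration -/
def cntT {p : ℕ} : LP p → IP p → ℕ
  | Sum.inl 0, Sum.inr (Sum.inr _) => 1
  | Sum.inl 1, Sum.inl _ => 1
  | Sum.inl 1, Sum.inr (Sum.inr 0) => 1
  | Sum.inl 2, Sum.inr (Sum.inl _) => 1
  | Sum.inl 2, Sum.inr (Sum.inr 0) => 1
  | Sum.inr (Sum.inl i), Sum.inl j => if j = i then 1 else 0
  | Sum.inr (Sum.inl i), Sum.inr (Sum.inl j) => if j = i then 1 else 0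
  | Sum.inr (Sum.inl _), Sum.inr (Sum.inr 1) => 1
  | Sum.inr (Sum.inr i), Sum.inl j => if j = i then 1 else 0
  | Sum.inr (Sum.inr i), Sum.inr (Sum.inl j) => if j = i + 1 then 1 else 0
  | Sum.inr (Sum.inr _), Sum.inr (Sum.inr 2) => 1
  | _, _ => 0

theorem cntT_eq {p : ℕ} (l : LP p) (i : IP p) (inst : Decidable (incT l i)) :
    @ite ℕ (incT l i) inst 1 0 = cntT l i := by
  rcases l with l | (l | l) <;> rcases i with i | (i | i)
  · fin_cases l <;> simp [incT, cntT]
  · fin_cases l <;> simp [incT, cntT]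
  · fin_cases l <;> fin_cases i <;> simp [incT, cntT]
  · by_cases h : i = l
    · have h' : incT (Sum.inr (Sum.inl l)) (Sum.inl i) := h
      rw [if_pos h']; simp [cntT, h]
    · have h' : ¬ incT (Sum.inr (Sum.inl l)) (Sum.inl i) := h
      rw [if_neg h']; simp [cntT, h]
  · by_cases h : i = l
    · have h' : incT (Sum.inr (Sum.inl l)) (Sum.inr (Sum.inl i)) := h
      rw [if_pos h']; simp [cntT, h]
    · have h' : ¬ incT (Sum.inr (Sum.inl l)) (Sum.inr (Sum.inl i)) := h
      rw [if_neg h']; simp [cntT, h]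
  · fin_cases i <;> simp [incT, cntT]
  · by_cases h : i = l
    · have h' : incT (Sum.inr (Sum.inr l)) (Sum.inl i) := h
      rw [if_pos h']; simp [cntT, h]
    · have h' : ¬ incT (Sum.inr (Sum.inr l)) (Sum.inl i) := h
      rw [if_neg h']; simp [cntT, h]
  · by_cases h : i = l + 1
    · have h' : incT (Sum.inr (Sum.inr l)) (Sum.inr (Sum.inl i)) := h
      rw [if_pos h']; simp [cntT, h]
    · have h' : ¬ incT (Sum.inr (Sum.inr l)) (Sum.inr (Sum.inl i)) := h
      rw [if_neg h']; simp [cntT, h]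
  · fin_cases i <;> simp [incT, cntT]

/-- incidence numbers in space -/
def cntS {p : ℕ} : Fin 2 ⊕ LP p → Option (IP p) → ℕ
  | Sum.inr l, some i => cntT l i
  | _, _ => 1

theorem cntS_eq {p : ℕ} (l : Fin 2 ⊕ LP p) (i : Option (IP p)) (inst : Decidable (incS l i)) :
    @ite ℕ (incS l i) inst 1 0 = cntS l i := by
  rcases l with l | l <;> rcases i with _ | i
  · exact if_pos trivial
  · exact if_pos trivial
  · exact if_pos trivial
  · exact cntT_eq l i inst

theorem card_EP (p : ℕ) [NeZero p] : (EP p).card = 14 * p + 16 := by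
  unfold EP
  rw [Finset.card_filter, Fintype.sum_prod_type]
  simp only [cntS_eq]
  simp only [Fintype.sum_sum_type, Fintype.sum_option, Fin.sum_univ_two, Fin.sum_univ_three]
  simp [cntS, cntT, Finset.sum_add_distrib, ZMod.card]
  ring

end Pool.Agent.H918R2
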