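import Mathlib
import Pool.Agent.Helper947.Crv.Sch

set_option autoImplicit false

open CategoryTheory CategoryTheory.Limits AlgebraicGeometry
open Pool.Agent.Helper947.Crv

namespace Pool.Agent.H918R2

/-- A subset `Z` (a component) of the Hilbert scheme exists only in characteristic `p` if its image
in the spectrum of the ring of integers is the point `(p)`, and `Z` is not contained in the
closure of the characteristic zero part of the Hilbert scheme. -/
def ExistsOnlyInChar {d g : ℤ} (𝓗 : HilbertScheme d g) (p : ℕ) (Z : Set 𝓗.H) : Prop :=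
  (specZIsTerminal.from 𝓗.H) '' Z =
    {q : Spec (CommRingCat.of ℤ) | (q : PrimeSpectrum ℤ).asIdeal = Ideal.span {(p : ℤ)}} ∧
  ¬ Z ⊆ closure ((specZIsTerminal.from 𝓗.H) ⁻¹'
    {q : Spec (CommRingCat.of ℤ) | (q : PrimeSpectrum ℤ).asIdeal = ⊥})

end Pool.Agent.H918R2
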