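import Mathlib
import Pool.Agent.H918R2.CharP2
import Pool.Agent.H918R2.OnlyP
import Pool.Agent.Helper947.Crv.Sch
import Pool.Agent.Helper947.Crv.F9
import Pool.Agent.Helper947.Crv.H1
import Pool.Agent.Helper947.Crv.H2
import Pool.Agent.Helper947.Crv.H3
import Pool.Agent.Helper947.Crv.H4
import Pool.Agent.Helper947.Crv.B3
import Pool.Agent.Helper947.Hil.Final

set_option autoImplicit false

open MvPolynomial Filter CategoryTheory CategoryTheory.Limits AlgebraicGeometry
open Pool.Agent.Helper947.Crv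

namespace Pool.Agent.H918R2

/-- the configuration forces characteristic `p` in all deformations -/
theorem charP_contra {k : Type*} [Field k] {p : ℕ} [Fact p.Prime] (φ : ZMod p →+* k)
    {e : ℕ} (he : 2 * (EP p).card + 1 < e)
    {cfg : Cfg k (Fin 2 ⊕ LP p) (Option (IP p))} (hg : cfg.Good e (EP p)) {c : k} {t : IP p → k}
    (hc : c ≠ 0) (ht : ∀ i, t i ≠ 0)
    (hd : ∀ a b d : IP p,
      d4 (bv (cfg.A (Sum.inl 0)) (cfg.B none)) (bv (cfg.A (Sum.inl 0)) (cfg.B (some a)))
          (bv (cfg.A (Sum.inl 0)) (cfg.B (some b))) (bv (cfg.A (Sum.inl 0)) (cfg.B (some d))) =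
          c * (t a * t b * t d) * d3 (ptP φ a) (ptP φ b) (ptP φ d))
    {K : Type*} [Field K] [IsAlgClosed K] (V : ValuationSubring K)
    (θ : k →+* IsLocalRing.ResidueField V) {I0 : Ideal (Pl K)} (hI : Hom I0)
    (h : ∀ᶠ m in atTop, ∀ p ∈ Fm _ m, p ∈ red V I0 ↔ p ∈ (cfg.map θ).J0) : (p : K) = 0 := by
  obtain ⟨w0, w, hw1, hw2⟩ := planar_lift (ptP φ) (lnP φ) (EP p) (mem_EP φ) he hg hd V θ hI h
  have hn : ∀ x y z, d3 (ptP φ x) (ptP φ y) (ptP φ z) ≠ 0 → d4 w0 (w x) (w y) (w z) ≠ 0 := by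
    intro x y z hxyz h0
    have h1 := hw2 x y z
    rw [h0, map_zero] at h1
    have h2 := (map_eq_zero θ).1 h1.symm
    exact mul_ne_zero (mul_ne_zero hc (mul_ne_zero (mul_ne_zero (ht x) (ht y)) (ht z))) hxyz h2
  have hinj : Function.Injective V.subtype := Subtype.val_injective
  have hmap : ∀ x y z, d4 (fun s => V.subtype (w0 s)) (fun s => V.subtype (w x s))
      (fun s => V.subtype (w y s)) (fun s => V.subtype (w z s)) =
      V.subtype (d4 w0 (w x) (w y) (w z)) := fun x y z => d4_map _ _ _ _ _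
  have hn' : ∀ x y z, d3 (ptP φ x) (ptP φ y) (ptP φ z) ≠ 0 → d4 (fun s => V.subtype (w0 s))
      (fun s => V.subtype (w x s)) (fun s => V.subtype (w y s)) (fun s => V.subtype (w z s)) ≠ 0 := by
    intro x y z hxyz h0
    rw [hmap] at h0
    exact hn x y z hxyz (hinj (by rw [h0, map_zero]))
  obtain ⟨u, hu, e1, e2, e3⟩ := proj3 (fun s => V.subtype (w0 s))
    (fun x s => V.subtype (w x s)) (Sum.inr (Sum.inr 0)) (Sum.inr (Sum.inr 1)) (Sum.inl 0)
    (hn' _ _ _ (by simp [d3, ptP]))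
  refine planar_charP φ u ?_ ?_ e1 e2 e3
  · intro x y z hl
    have h1 := hu x y z
    rw [hmap, hw1 x y z hl, map_zero] at h1
    exact (mul_eq_zero.1 h1.symm).resolve_right (hn' _ _ _ (by simp [d3, ptP]))
  · intro x y z hxyz h0
    have h1 := hu x y z
    rw [h0, zero_mul] at h1
    exact hn' x y z hxyz h1

/-- extension of residue fields -/
theorem exists_theta {O k κ : Type} [CommRing O] [IsLocalRing O] [Field k] [Field κ]
    [IsAlgClosed κ] (p : ℕ) [Fact p.Prime] [Algebra (ZMod p) k] [Algebra.IsAlgebraic (ZMod p) k]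
    (G : O →+* k) [IsLocalHom G] (F : O →+* κ) [IsLocalHom F] : ∃ θ : k →+* κ, θ.comp G = F := by
  obtain ⟨g, hg⟩ : ∃ g : IsLocalRing.ResidueField O →+* k, g.comp (IsLocalRing.residue O) = G :=
    ⟨IsLocalRing.ResidueField.lift G, by ext; rfl⟩
  obtain ⟨f, hf⟩ : ∃ f : IsLocalRing.ResidueField O →+* κ, f.comp (IsLocalRing.residue O) = F :=
    ⟨IsLocalRing.ResidueField.lift F, by ext; rfl⟩
  let _ := g.toAlgebra
  let _ := f.toAlgebra
  have hchar : CharP k p := charP_of_injective_algebraMap (algebraMap (ZMod p) k).injective p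
  have hchar2 : CharP (IsLocalRing.ResidueField O) p :=
    (RingHom.charP_iff g g.injective p).2 hchar
  have halg : Algebra.IsAlgebraic (IsLocalRing.ResidueField O) k := by
    refine ⟨fun z => ?_⟩
    obtain ⟨q, hq0, hq⟩ := Algebra.IsAlgebraic.isAlgebraic (R := ZMod p) z
    refine ⟨q.map (ZMod.castHom (dvd_refl p) (IsLocalRing.ResidueField O)), ?_, ?_⟩
    · rw [Ne, Polynomial.map_eq_zero]
      exact hq0
    · rw [Polynomial.aeval_def, Polynomial.eval₂_map]
      have : (algebraMap (IsLocalRing.ResidueField O) k).comp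
          (ZMod.castHom (dvd_refl p) (IsLocalRing.ResidueField O)) = algebraMap (ZMod p) k :=
        Subsingleton.elim _ _
      rw [this]
      exact hq
  refine ⟨((IsAlgClosed.lift : k →ₐ[IsLocalRing.ResidueField O] κ) : k →+* κ), ?_⟩
  rw [← hg, ← hf]
  ext s
  exact (IsAlgClosed.lift : k →ₐ[IsLocalRing.ResidueField O] κ).commutes _

/-- valuation rings for specializations to points which are algebraic over the prime field -/
theorem exists_val' {Y : Scheme.{0}} {k K : Type} [Field k] [Field K] [IsAlgClosed K] (p : ℕ)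
    [Fact p.Prime] [Algebra (ZMod p) k] [Algebra.IsAlgebraic (ZMod p) k]
    (x : Spec (CommRingCat.of k) ⟶ Y)
    (f : Spec (CommRingCat.of K) ⟶ Y) (hf : f (ptF K) ⤳ x (ptF k)) :
    ∃ (V : ValuationSubring K) (v : Spec (CommRingCat.of V) ⟶ Y)
      (θ : k →+* IsLocalRing.ResidueField V),
      Spec.map (CommRingCat.ofHom V.subtype) ≫ v = f ∧
      Spec.map (CommRingCat.ofHom (IsLocalRing.residue V)) ≫ v =
        Spec.map (CommRingCat.ofHom θ) ≫ x := by
  have ptF_eq : ∀ (k : Type) [Field k], ptF k = IsLocalRing.closedPoint (CommRingCat.of k) := by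
    intro k _
    refine PrimeSpectrum.ext ?_
    change (⊥ : Ideal k) = IsLocalRing.maximalIdeal k
    rw [IsLocalRing.maximalIdeal_eq_bot]
  rw [ptF_eq, ptF_eq] at hf
  obtain ⟨G, hG⟩ : ∃ G, G = Scheme.stalkClosedPointTo x := ⟨_, rfl⟩
  have hGx : Spec.map G ≫ Y.fromSpecStalk _ = x := by
    rw [hG]; exact Scheme.Spec_stalkClosedPointTo_fromSpecStalk x
  have hGloc : IsLocalHom G.hom := by
    rw [hG]; infer_instance
  obtain ⟨F, hF⟩ : ∃ F, F = Y.presheaf.stalkSpecializes hf ≫ Scheme.stalkClosedPointTo f :=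
    ⟨_, rfl⟩
  have hFf : Spec.map F ≫ Y.fromSpecStalk _ = f := by
    rw [hF, Spec.map_comp, Category.assoc, Scheme.SpecMap_stalkSpecializes_fromSpecStalk]
    exact Scheme.Spec_stalkClosedPointTo_fromSpecStalk f
  obtain ⟨V, hV, hloc⟩ := IsLocalRing.exists_factor_valuationRing (K := K) F.hom
  let F' : Y.presheaf.stalk (x (IsLocalRing.closedPoint (CommRingCat.of k))) ⟶ CommRingCat.of V :=
    CommRingCat.ofHom (F.hom.codRestrict _ hV)
  have hF' : F' ≫ CommRingCat.ofHom V.subtype = F := by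
    ext s
    rfl
  have hθ : ∃ θ : k →+* IsLocalRing.ResidueField V,
      θ.comp G.hom = (IsLocalRing.residue V).comp F'.hom := by
    have : IsAlgClosed (IsLocalRing.ResidueField V) := residue_algClosed V
    have hloc' : IsLocalHom ((IsLocalRing.residue V).comp F'.hom) := by
      have : IsLocalHom F'.hom := hloc
      infer_instance
    exact exists_theta p G.hom ((IsLocalRing.residue V).comp F'.hom)
  obtain ⟨θ, hθ⟩ := hθ
  refine ⟨V, Spec.map F' ≫ Y.fromSpecStalk _, θ, ?_, ?_⟩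
  · rw [← Category.assoc, ← Spec.map_comp, hF', hFf]
  · have h3 : F' ≫ CommRingCat.ofHom (IsLocalRing.residue V) = G ≫ CommRingCat.ofHom θ := by
      ext s
      exact (congrArg (fun g => g s) hθ).symm
    rw [← Category.assoc, ← Spec.map_comp, h3, Spec.map_comp, Category.assoc, hGx]

/-- the special fibre of the family over a valuation ring given by a specialization -/
theorem key' {d g : ℤ} (𝓗 : HilbertScheme d g) {k K : Type} [Field k] [Field K] [IsAlgClosed K]
    (p : ℕ) [Fact p.Prime] [Algebra (ZMod p) k] [Algebra.IsAlgebraic (ZMod p) k]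
    (x : HilbPt d g k)
    (f : Spec (CommRingCat.of K) ⟶ 𝓗.H) (hf : f (ptF K) ⤳ ((𝓗.Φ k).symm x) (ptF k))
    {J M : Type} [Fintype J] [Fintype M] {c : Cfg k J M} {e : ℕ} {E : Finset (J × M)}
    (hc : c.Good e E) (hx : x.I = c.J0) :
    ∃ (V : ValuationSubring K) (θ : k →+* IsLocalRing.ResidueField V),
      ∀ᶠ m in atTop, ∀ p ∈ Fm _ m,
        p ∈ red V (𝓗.Φ K f).I ↔ p ∈ (c.map θ).J0 := by
  obtain ⟨V, v, θ, hv1, hv2⟩ := exists_val' p ((𝓗.Φ k).symm x) f hf
  refine ⟨V, θ, ?_⟩
  have hn1 := 𝓗.natural V K V.subtype v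
  rw [hv1] at hn1
  have hn2 := 𝓗.natural V (IsLocalRing.ResidueField V) (IsLocalRing.residue V) v
  rw [hv2] at hn2
  have hn3 := 𝓗.natural k (IsLocalRing.ResidueField V) θ ((𝓗.Φ k).symm x)
  rw [Equiv.apply_symm_apply, hx] at hn3
  have hn4 := J0_map θ hc
  apply red_of_val V (𝓗.Φ V v) (𝓗.Φ K f) hn1
  obtain ⟨m2, h2⟩ := hn2
  obtain ⟨m3, h3⟩ := hn3
  obtain ⟨m4, h4⟩ := eventually_atTop.mp hn4
  refine ⟨max m2 (max m3 m4), fun m hm p hp => ?_⟩
  have a2 := h2 m (le_trans (le_max_left _ _) hm) p hp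
  have a3 := h3 m (le_trans ((le_max_left _ _).trans (le_max_right _ _)) hm) p hp
  have a4 := h4 m (le_trans ((le_max_right _ _).trans (le_max_right _ _)) hm) p hp
  rw [← a4, ← a3, a2]

/-- points of the scheme of integers of fields in which `p` vanishes -/
theorem map_ptF_eq {K : Type} [Field K] {p : ℕ} [Fact p.Prime] (h : (p : K) = 0)
    (g : Spec (CommRingCat.of K) ⟶ Spec (CommRingCat.of ℤ)) :
    ((g (ptF K) : Spec (CommRingCat.of ℤ)) : PrimeSpectrum ℤ).asIdeal = Ideal.span {(p : ℤ)} := by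
  obtain ⟨a, rfl⟩ := Spec.map_surjective g
  have h1 : ((Spec.map a (ptF K) : Spec (CommRingCat.of ℤ)) : PrimeSpectrum ℤ).asIdeal =
      RingHom.ker a.hom := rfl
  have hp : Prime (p : ℤ) := Nat.prime_iff_prime_int.1 Fact.out
  have hmax : (Ideal.span {(p : ℤ)}).IsMaximal :=
    PrincipalIdealRing.isMaximal_of_irreducible hp.irreducible
  rw [h1]
  refine (hmax.eq_of_le (RingHom.ker_ne_top _) ?_).symm
  rw [Ideal.span_singleton_le_iff_mem, RingHom.mem_ker]
  change a.hom (p : ℤ) = 0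
  rw [map_natCast]
  exact h

theorem existsOnlyInChar (p : ℕ) [Fact p.Prime] :
    Nonempty (HilbertScheme (6 * p + 14) (-(56 * p ^ 2 + 184 * p + 146))) ∧
    ∀ 𝓗 : HilbertScheme (6 * p + 14) (-(56 * p ^ 2 + 184 * p + 146)),
      ∃ Z ∈ irreducibleComponents 𝓗.H, ExistsOnlyInChar 𝓗 p Z := by
  constructor
  · have h := Pool.Agent.Helper947.Hil.hilbert_scheme_exists (6 * p + 14)
      (56 * p ^ 2 + 184 * p + 147)
    have e1 : ((6 * p + 14 : ℕ) : ℤ) = 6 * (p : ℤ) + 14 := by push_cast; ring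
    have e2 : (1 : ℤ) - ((56 * p ^ 2 + 184 * p + 147 : ℕ) : ℤ) =
        -(56 * (p : ℤ) ^ 2 + 184 * p + 146) := by push_cast; ring
    rwa [e1, e2] at h
  intro 𝓗
  have hinf : Infinite (AlgebraicClosure (ZMod p)) := inferInstance
  have hcardM : Fintype.card (Option (IP p)) = 2 * p + 4 := by
    simp [ZMod.card]; ring
  have hcardJ : Fintype.card (Fin 2 ⊕ LP p) = 2 * p + 5 := by
    simp [ZMod.card]; ring
  obtain ⟨cfg, hgood, c, t, hc, ht, hd⟩ := exists_cfg
    (ptP (algebraMap (ZMod p) (AlgebraicClosure (ZMod p))))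
    (lnP (algebraMap (ZMod p) (AlgebraicClosure (ZMod p)))) (ptP_ne _) (lnP_ne _) (cr_ptP _)
    (EP p) (mem_EP _) (e := 28 * p + 34) (by rw [hcardM]; omega)
  obtain ⟨x, hx⟩ := exists_pt (d := 6 * p + 14) (g := -(56 * p ^ 2 + 184 * p + 146)) hgood
    (by rw [hcardM, hcardJ]; push_cast; ring) (by rw [hcardM, hcardJ, card_EP]; push_cast; ring)
  obtain ⟨y, hy⟩ : ∃ y, y = ((𝓗.Φ (AlgebraicClosure (ZMod p))).symm x)
    (ptF (AlgebraicClosure (ZMod p))) := ⟨_, rfl⟩
  -- geometric points specializing to `y` have characteristic `p`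
  have main : ∀ (K : Type) [Field K] [IsAlgClosed K] (f : Spec (CommRingCat.of K) ⟶ 𝓗.H),
      f (ptF K) ⤳ y → (p : K) = 0 := by
    intro K _ _ f hf
    obtain ⟨V, θ, hev⟩ := key' 𝓗 p x f (by rw [← hy]; exact hf) hgood hx
    exact charP_contra (algebraMap (ZMod p) (AlgebraicClosure (ZMod p)))
      (by rw [card_EP]; omega) hgood hc ht hd V θ (𝓗.Φ K f).hom hev
  refine ⟨irreducibleComponent y, irreducibleComponent_mem_irreducibleComponents _, ?_, ?_⟩
  · have hirr : IsIrreducible (irreducibleComponent y) := isIrreducible_irreducibleComponent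
    have hcl : IsClosed (irreducibleComponent y) := isClosed_irreducibleComponent
    obtain ⟨η, hη⟩ := QuasiSober.sober hirr hcl
    obtain ⟨K, _, _, f, hf⟩ := exists_geom η
    have hsp : η ⤳ y := hη.specializes mem_irreducibleComponent
    have hpK : (p : K) = 0 := main K f (by rw [hf]; exact hsp)
    have hπη : ((specZIsTerminal.from 𝓗.H η : Spec (CommRingCat.of ℤ)) :
        PrimeSpectrum ℤ).asIdeal = Ideal.span {(p : ℤ)} := by
      have := map_ptF_eq hpK (f ≫ specZIsTerminal.from 𝓗.H)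
      rwa [Scheme.Hom.comp_apply, hf] at this
    have hp : Prime (p : ℤ) := Nat.prime_iff_prime_int.1 Fact.out
    have hmax : (Ideal.span {(p : ℤ)}).IsMaximal :=
      PrincipalIdealRing.isMaximal_of_irreducible hp.irreducible
    have hZ : ∀ z ∈ irreducibleComponent y,
        ((specZIsTerminal.from 𝓗.H z : Spec (CommRingCat.of ℤ)) : PrimeSpectrum ℤ).asIdeal =
          Ideal.span {(p : ℤ)} := by
      intro z hz
      have h1 : η ⤳ z := hη.specializes hz
      have h2 : (specZIsTerminal.from 𝓗.H) η ⤳ (specZIsTerminal.from 𝓗.H) z :=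
        h1.map (specZIsTerminal.from 𝓗.H).continuous
      have h3 := (PrimeSpectrum.le_iff_specializes _ _).2 h2
      rw [← hπη] at hmax ⊢
      exact (hmax.eq_of_le (PrimeSpectrum.isPrime _).ne_top h3).symm
    ext q
    constructor
    · rintro ⟨z, hz, rfl⟩
      exact hZ z hz
    · intro hq
      refine ⟨y, mem_irreducibleComponent, ?_⟩
      apply PrimeSpectrum.ext
      rw [hZ y mem_irreducibleComponent]
      exact hq.symm
  · intro hsub
    obtain ⟨K, _, _, hK, f, hf⟩ := exists_closure p _ (by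
      intro z hz K _ f hfz h0
      have h1 := map_ptF_eq h0 (f ≫ specZIsTerminal.from 𝓗.H)
      rw [Scheme.Hom.comp_apply, hfz] at h1
      have h2 : ((specZIsTerminal.from 𝓗.H z : Spec (CommRingCat.of ℤ)) :
        PrimeSpectrum ℤ).asIdeal = ⊥ := hz
      rw [h2] at h1
      have h3 : (p : ℤ) ∈ (⊥ : Ideal ℤ) := by
        rw [h1]; exact Ideal.mem_span_singleton_self _
      rw [Ideal.mem_bot] at h3
      exact (Fact.out : p.Prime).ne_zero (by exact_mod_cast h3))
      (hsub (mem_irreducibleComponent (x := y)))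
    exact hK (main K f hf)

end Pool.Agent.H918R2
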