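import Mathlib
import Pool.Agent.H918R2.Real4

set_option autoImplicit false

open Polynomial
open Pool.Agent.Helper947.Crv

namespace Pool.Agent.H918R2

variable {k : Type*} [Field k]

/-- adding lines which meet only one of the given lines -/
theorem exists_pend [Infinite k] {N P : Type*} [Finite N] [Finite P]
    (mat : N → Matrix (Fin 2) (Fin 2) k) (hinj : ∀ u w, u ≠ w → mat u ≠ mat w) (att : P → N) :
    ∃ C : P → Matrix (Fin 2) (Fin 2) k, (∀ p, (C p - mat (att p)).det = 0) ∧
      (∀ p, C p ≠ mat (att p)) ∧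
      (∀ p w, w ≠ att p → (C p - mat w).det ≠ 0) ∧
      (∀ p p', p ≠ p' → (C p - C p').det ≠ 0) := by
  classical
  cases nonempty_fintype P
  let n : P → ℕ := fun p => (Fintype.equivFin P p : ℕ) + 1
  have hn0 : ∀ p, 0 < n p := fun p => Nat.succ_pos _
  have hn : ∀ p p', p ≠ p' → n p ≠ n p' := by
    intro p p' h h1
    exact h ((Fintype.equivFin P).injective (Fin.ext (Nat.succ_injective h1)))
  obtain ⟨z, hz⟩ := exists_eval_ne (k := k)
    (ι := {x : P × N // x.2 ≠ att x.1} ⊕ ({x : P × P // x.1 ≠ x.2} ⊕ {x : P × P // x.1 ≠ x.2}))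
    (Sum.elim (fun x => expand k (n x.1.1) (C ((mat (att x.1.1) - mat x.1.2) 1 1) -
        C ((mat (att x.1.1) - mat x.1.2) 0 1) * X - C ((mat (att x.1.1) - mat x.1.2) 1 0) * X ^ 2 +
        C ((mat (att x.1.1) - mat x.1.2) 0 0) * X ^ 3))
      (Sum.elim (fun x => X ^ n x.1.1 - X ^ n x.1.2)
        (fun x => X ^ (2 * n x.1.1) - X ^ (2 * n x.1.2)))) (by
      rintro (⟨⟨p, w⟩, h⟩ | (⟨⟨p, p'⟩, h⟩ | ⟨⟨p, p'⟩, h⟩)) h0
      · simp only [Sum.elim_inl] at h0
        rw [expand_eq_zero (hn0 p)] at h0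
        have c0 := congrArg (fun f => f.coeff 0) h0
        have c1 := congrArg (fun f => f.coeff 1) h0
        have c2 := congrArg (fun f => f.coeff 2) h0
        have c3 := congrArg (fun f => f.coeff 3) h0
        simp only [coeff_add, coeff_sub, coeff_C_mul, coeff_X, coeff_C, coeff_X_pow,
          coeff_zero] at c0 c1 c2 c3
        norm_num at c0 c1 c2 c3
        apply hinj w (att p) h
        ext a b
        fin_cases a <;> fin_cases b
        · exact (sub_eq_zero.1 c3).symm
        · exact sub_eq_zero.1 c1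
        · exact sub_eq_zero.1 c2
        · exact (sub_eq_zero.1 c0).symm
      · simp only [Sum.elim_inl, Sum.elim_inr] at h0
        have c1 := congrArg (fun f => f.coeff (n p)) h0
        simp only [coeff_sub, coeff_X_pow, coeff_zero, if_true] at c1
        rw [if_neg (hn p p' h)] at c1
        simp at c1
      · simp only [Sum.elim_inr] at h0
        have c1 := congrArg (fun f => f.coeff (2 * n p)) h0
        simp only [coeff_sub, coeff_X_pow, coeff_zero, if_true] at c1
        rw [if_neg (fun h' => hn p p' h (by omega))] at c1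
        simp at c1)
  have hz1 : ∀ p w, w ≠ att p → (mat (att p) - mat w) 1 1 - (mat (att p) - mat w) 0 1 * z ^ n p -
      (mat (att p) - mat w) 1 0 * (z ^ n p) ^ 2 + (mat (att p) - mat w) 0 0 * (z ^ n p) ^ 3 ≠ 0 := by
    intro p w h
    have := hz (Sum.inl ⟨(p, w), h⟩)
    simp only [Sum.elim_inl, expand_eval, eval_add, eval_sub, eval_mul, eval_C, eval_X,
      eval_pow] at this
    exact this
  have hz2 : ∀ p p', p ≠ p' → z ^ n p - z ^ n p' ≠ 0 := by
    intro p p' h
    have := hz (Sum.inr (Sum.inl ⟨(p, p'), h⟩))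
    simp only [Sum.elim_inr, Sum.elim_inl, eval_sub, eval_X, eval_pow] at this
    exact this
  have hz3 : ∀ p p', p ≠ p' → (z ^ n p) ^ 2 - (z ^ n p') ^ 2 ≠ 0 := by
    intro p p' h
    have := hz (Sum.inr (Sum.inr ⟨(p, p'), h⟩))
    simp only [Sum.elim_inr, eval_sub, eval_X, eval_pow] at this
    intro h1
    apply this
    rw [← h1]; ring
  clear hz
  obtain ⟨a, ha⟩ : ∃ a : P → k, ∀ p, a p = z ^ n p := ⟨_, fun p => rfl⟩
  simp only [← ha] at hz1 hz2 hz3
  clear ha hn hn0
  -- scaling
  obtain ⟨τ, hτ⟩ := exists_eval_ne (k := k)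
    (ι := Unit ⊕ ({x : P × N // x.2 ≠ att x.1} ⊕ {x : P × P // x.1 ≠ x.2}))
    (Sum.elim (fun _ => X) (Sum.elim
      (fun x => C ((mat (att x.1.1) - mat x.1.2).det) +
        C ((mat (att x.1.1) - mat x.1.2) 1 1 - (mat (att x.1.1) - mat x.1.2) 0 1 * a x.1.1 -
      (mat (att x.1.1) - mat x.1.2) 1 0 * (a x.1.1) ^ 2 +
      (mat (att x.1.1) - mat x.1.2) 0 0 * (a x.1.1) ^ 3) * X)
      (fun x => C ((mat (att x.1.1) - mat (att x.1.2)).det) +
        C ((mat (att x.1.1) - mat (att x.1.2)) 0 0 * ((a x.1.1) ^ 3 - (a x.1.2) ^ 3) +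
          (mat (att x.1.1) - mat (att x.1.2)) 1 1 * (1 - 1) -
          (mat (att x.1.1) - mat (att x.1.2)) 0 1 * (a x.1.1 - a x.1.2) -
          (mat (att x.1.1) - mat (att x.1.2)) 1 0 * ((a x.1.1) ^ 2 - (a x.1.2) ^ 2)) * X -
        C ((a x.1.1 - a x.1.2) * ((a x.1.1) ^ 2 - (a x.1.2) ^ 2)) * X ^ 2))) (by
      rintro (_ | (⟨⟨p, w⟩, h⟩ | ⟨⟨p, p'⟩, h⟩)) h0
      · exact X_ne_zero h0
      · simp only [Sum.elim_inl, Sum.elim_inr] at h0
        have c1 := congrArg (fun f => f.coeff 1) h0
        simp only [coeff_add, coeff_C_mul, coeff_X, coeff_C, coeff_zero] at c1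
        norm_num at c1
        exact hz1 p w h c1
      · simp only [Sum.elim_inr] at h0
        have c1 := congrArg (fun f => f.coeff 2) h0
        simp only [coeff_add, coeff_sub, coeff_C_mul, coeff_X, coeff_C, coeff_X_pow,
          coeff_zero] at c1
        norm_num at c1
        rcases c1 with c1 | c1
        · exact hz2 p p' h c1
        · exact hz3 p p' h c1)
  have hτ0 : τ ≠ 0 := by
    have := hτ (Sum.inl ())
    simpa using this
  refine ⟨fun p => mat (att p) + τ • !![1, (a p) ^ 2; a p, (a p) ^ 3], ?_, ?_, ?_, ?_⟩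
  · intro p
    rw [add_sub_cancel_left, Matrix.det_smul, Matrix.det_fin_two]
    simp
    right
    ring
  · intro p h
    have h1 := congrArg (fun X => X 0 0) h
    simp at h1
    exact hτ0 h1
  · intro p w hw
    have := hτ (Sum.inr (Sum.inl ⟨(p, w), hw⟩))
    simp only [Sum.elim_inl, Sum.elim_inr, eval_add, eval_mul, eval_C, eval_X] at this
    intro h0
    apply this
    rw [Matrix.det_fin_two] at h0 ⊢
    simp only [Matrix.sub_apply, Matrix.add_apply, Matrix.smul_apply, smul_eq_mul,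
      Matrix.of_apply, Matrix.cons_val_zero, Matrix.cons_val_one, Matrix.cons_val',
      Matrix.empty_val', Matrix.cons_val_fin_one] at h0 ⊢
    linear_combination h0
  · intro p p' hpp
    have := hτ (Sum.inr (Sum.inr ⟨(p, p'), hpp⟩))
    simp only [Sum.elim_inr, eval_add, eval_sub, eval_mul, eval_C, eval_X,
      eval_pow] at this
    intro h0
    apply this
    rw [Matrix.det_fin_two] at h0 ⊢
    simp only [Matrix.sub_apply, Matrix.add_apply, Matrix.smul_apply, smul_eq_mul,
      Matrix.of_apply, Matrix.cons_val_zero, Matrix.cons_val_one, Matrix.cons_val',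
      Matrix.empty_val', Matrix.cons_val_fin_one] at h0 ⊢
    linear_combination h0

end Pool.Agent.H918R2
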