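import Mathlib

set_option autoImplicit false

namespace Pool.Agent.H918R2

/-- the graph `G0` with `f u` pendant vertices attached to the vertex `u` -/
def GG {N : Type*} (f : N → ℕ) (G0 : N → N → Prop) :
    N ⊕ (Σ u : N, Fin (f u)) → N ⊕ (Σ u : N, Fin (f u)) → Prop
  | Sum.inl u, Sum.inl v => G0 u v
  | Sum.inl u, Sum.inr p => p.1 = u
  | Sum.inr p, Sum.inl u => p.1 = u
  | Sum.inr _, Sum.inr _ => False

/-- vertices with exactly one neighbour -/
def leaf {N : Type*} (f : N → ℕ) (G0 : N → N → Prop) (v : N ⊕ (Σ u : N, Fin (f u))) : Prop :=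
  ∃ w, ∀ w', GG f G0 v w' ↔ w' = w

theorem leaf_inr {N : Type*} (f : N → ℕ) (G0 : N → N → Prop) (p : Σ u : N, Fin (f u)) :
    leaf f G0 (Sum.inr p) := by
  refine ⟨Sum.inl p.1, ?_⟩
  rintro (u | q)
  · simp only [GG, Sum.inl.injEq]
    exact eq_comm
  · simp only [GG, false_iff]
    exact fun h => Sum.inr_ne_inl h

theorem not_leaf_inl {N : Type*} (f : N → ℕ) (hf2 : ∀ u, 2 ≤ f u) (G0 : N → N → Prop) (u : N) :
    ¬ leaf f G0 (Sum.inl u) := by
  rintro ⟨w, hw⟩
  have h0 := (hw (Sum.inr ⟨u, ⟨0, by have := hf2 u; omega⟩⟩)).1 rfl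
  have h1 := (hw (Sum.inr ⟨u, ⟨1, by have := hf2 u; omega⟩⟩)).1 rfl
  have h2 := h0.trans h1.symm
  simp at h2

theorem card_leaf {N : Type*} (f : N → ℕ) (hf2 : ∀ u, 2 ≤ f u) (G0 : N → N → Prop) (u : N) :
    Nat.card {v // GG f G0 (Sum.inl u) v ∧ leaf f G0 v} = f u := by
  have h : Function.Bijective (fun a : Fin (f u) =>
      (⟨Sum.inr ⟨u, a⟩, rfl, leaf_inr f G0 _⟩ : {v // GG f G0 (Sum.inl u) v ∧ leaf f G0 v})) := by
    constructor
    · intro a b hab
      simpa using hab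
    · rintro ⟨v | ⟨w, a⟩, hv, hl⟩
      · exact absurd hl (not_leaf_inl f hf2 G0 v)
      · have : w = u := hv
        subst this
        exact ⟨a, rfl⟩
  rw [← Nat.card_congr (Equiv.ofBijective _ h), Nat.card_fin]

theorem rigid {N X : Type*} (f : N → ℕ) (hf : Function.Injective f) (hf2 : ∀ u, 2 ≤ f u)
    (G0 : N → N → Prop) (L L' : N ⊕ (Σ u : N, Fin (f u)) → X) (hL : Function.Injective L)
    (hL' : Function.Injective L') (hr : Set.range L = Set.range L') (adj : X → X → Prop)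
    (h : ∀ u v, adj (L u) (L v) ↔ GG f G0 u v) (h' : ∀ u v, adj (L' u) (L' v) ↔ GG f G0 u v) :
    ∀ u : N, L (Sum.inl u) = L' (Sum.inl u) := by
  let e : (N ⊕ (Σ u : N, Fin (f u))) ≃ (N ⊕ (Σ u : N, Fin (f u))) :=
    (Equiv.ofInjective L hL).trans ((Equiv.setCongr hr).trans (Equiv.ofInjective L' hL').symm)
  have he : ∀ u, L' (e u) = L u := by
    intro u
    exact Equiv.apply_ofInjective_symm hL' ((Equiv.setCongr hr) (Equiv.ofInjective L hL u))
  have hadj : ∀ u v, GG f G0 (e u) (e v) ↔ GG f G0 u v := by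
    intro u v
    rw [← h', ← h, he, he]
  have hleaf : ∀ v, leaf f G0 (e v) ↔ leaf f G0 v := by
    intro v
    constructor
    · rintro ⟨w, hw⟩
      refine ⟨e.symm w, fun w' => ?_⟩
      rw [← hadj, hw, ← e.apply_eq_iff_eq_symm_apply]
    · rintro ⟨w, hw⟩
      refine ⟨e w, fun w' => ?_⟩
      obtain ⟨w', rfl⟩ := e.surjective w'
      rw [hadj, hw, e.apply_eq_iff_eq]
  intro u
  rcases hu : e (Sum.inl u) with u' | p
  · have h1 : Nat.card {v // GG f G0 (Sum.inl u) v ∧ leaf f G0 v} =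
        Nat.card {v // GG f G0 (Sum.inl u') v ∧ leaf f G0 v} := by
      refine Nat.card_congr (Equiv.subtypeEquiv e fun v => ?_)
      rw [← hu, hadj, hleaf]
    rw [card_leaf f hf2, card_leaf f hf2] at h1
    rw [← he, hu, hf h1]
  · exact absurd ((hleaf (Sum.inl u)).1 (by rw [hu]; exact leaf_inr f G0 p))
      (not_leaf_inl f hf2 G0 u)

end Pool.Agent.H918R2
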