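import Mathlib
import Pool.Agent.H918R2.Pend
import Pool.Agent.H918R2.Rigid
import Pool.Agent.H918R2.Lift1

set_option autoImplicit false

open Pool.Agent.Helper947.Crv

namespace Pool.Agent.H918R2

/-- incidence relation with pendant lines -/
def GP {J M : Type} (f : J ⊕ M → ℕ) (G : J → M → Prop) :
    J ⊕ (Σ i : M, Fin (f (Sum.inr i))) → M ⊕ (Σ j : J, Fin (f (Sum.inl j))) → Prop
  | Sum.inl j, Sum.inl i => G j i
  | Sum.inl j, Sum.inr q => q.1 = j
  | Sum.inr p, Sum.inl i => p.1 = i
  | Sum.inr _, Sum.inr _ => False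

/-- the symmetric relation given by a relation between two sets -/
def G2 {J M : Type} (G : J → M → Prop) : J ⊕ M → J ⊕ M → Prop
  | Sum.inl j, Sum.inr i => G j i
  | Sum.inr i, Sum.inl j => G j i
  | _, _ => False

theorem det_comm' {k : Type*} [CommRing k] (X Y : Matrix (Fin 2) (Fin 2) k) :
    (X - Y).det = (Y - X).det := by
  rw [Matrix.det_fin_two, Matrix.det_fin_two]
  simp only [Matrix.sub_apply]
  ring

/-- adding pendant lines to a configuration -/
theorem exists_pend2 {k : Type*} [Field k] [Infinite k] {J M : Type} [Finite J] [Finite M]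
    (A : J → Matrix (Fin 2) (Fin 2) k) (B : M → Matrix (Fin 2) (Fin 2) k)
    (hA : ∀ j j', j ≠ j' → (A j - A j').det ≠ 0) (hB : ∀ i i', i ≠ i' → (B i - B i').det ≠ 0)
    (G : J → M → Prop) (hG : ∀ j i, (A j - B i).det = 0 ↔ G j i) (hne : ∀ j i, A j ≠ B i)
    (f : J ⊕ M → ℕ) :
    ∃ (A' : J ⊕ (Σ i : M, Fin (f (Sum.inr i))) → Matrix (Fin 2) (Fin 2) k)
      (B' : M ⊕ (Σ j : J, Fin (f (Sum.inl j))) → Matrix (Fin 2) (Fin 2) k),
      (∀ j, A' (Sum.inl j) = A j) ∧ (∀ i, B' (Sum.inl i) = B i) ∧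
      (∀ j j', j ≠ j' → (A' j - A' j').det ≠ 0) ∧ (∀ i i', i ≠ i' → (B' i - B' i').det ≠ 0) ∧
      (∀ j i, (A' j - B' i).det = 0 ↔ GP f G j i) ∧ ∀ j i, A' j ≠ B' i := by
  have hmat : ∀ u w : J ⊕ M, u ≠ w → Sum.elim A B u ≠ Sum.elim A B w := by
    rintro (j | i) (j' | i') huw h
    · apply hA j j' (fun h' => huw (by rw [h']))
      have : A j = A j' := h
      rw [this, sub_self, Matrix.det_zero]
    · exact hne j i' h
    · exact hne j' i h.symm
    · apply hB i i' (fun h' => huw (by rw [h']))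
      have : B i = B i' := h
      rw [this, sub_self, Matrix.det_zero]
  obtain ⟨C, h1, h2, h3, h4⟩ := exists_pend (P := Σ u : J ⊕ M, Fin (f u)) (Sum.elim A B) hmat
    (fun p => p.1)
  refine ⟨Sum.elim A (fun p => C ⟨Sum.inr p.1, p.2⟩), Sum.elim B (fun q => C ⟨Sum.inl q.1, q.2⟩),
    fun _ => rfl, fun _ => rfl, ?_, ?_, ?_, ?_⟩
  · rintro (j | p) (j' | p') hjj
    · exact hA j j' (fun h' => hjj (by rw [h']))
    · simp only [Sum.elim_inl, Sum.elim_inr]
      rw [det_comm']
      exact h3 ⟨Sum.inr p'.1, p'.2⟩ (Sum.inl j) (by simp)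
    · exact h3 ⟨Sum.inr p.1, p.2⟩ (Sum.inl j') (by simp)
    · refine h4 _ _ ?_
      intro h
      apply hjj
      obtain ⟨a, b⟩ := p
      obtain ⟨a', b'⟩ := p'
      simp only [Sigma.mk.injEq, Sum.inr.injEq] at h
      obtain ⟨rfl, h⟩ := h
      rw [eq_of_heq h]
  · rintro (j | p) (j' | p') hjj
    · exact hB j j' (fun h' => hjj (by rw [h']))
    · simp only [Sum.elim_inl, Sum.elim_inr]
      rw [det_comm']
      exact h3 ⟨Sum.inl p'.1, p'.2⟩ (Sum.inr j) (by simp)
    · exact h3 ⟨Sum.inl p.1, p.2⟩ (Sum.inr j') (by simp)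
    · refine h4 _ _ ?_
      intro h
      apply hjj
      obtain ⟨a, b⟩ := p
      obtain ⟨a', b'⟩ := p'
      simp only [Sigma.mk.injEq, Sum.inl.injEq] at h
      obtain ⟨rfl, h⟩ := h
      rw [eq_of_heq h]
  · rintro (j | p) (i | q)
    · exact hG j i
    · show (A j - C ⟨Sum.inl q.1, q.2⟩).det = 0 ↔ q.1 = j
      constructor
      · intro h
        by_contra hc
        rw [det_comm'] at h
        exact h3 ⟨Sum.inl q.1, q.2⟩ (Sum.inl j) (fun h' => hc (by simpa using h'.symm)) h
      · intro h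
        rw [← h, det_comm']
        exact h1 ⟨Sum.inl q.1, q.2⟩
    · show (C ⟨Sum.inr p.1, p.2⟩ - B i).det = 0 ↔ p.1 = i
      constructor
      · intro h
        by_contra hc
        exact h3 ⟨Sum.inr p.1, p.2⟩ (Sum.inr i) (fun h' => hc (by simpa using h'.symm)) h
      · intro h
        rw [← h]
        exact h1 ⟨Sum.inr p.1, p.2⟩
    · show (C ⟨Sum.inr p.1, p.2⟩ - C ⟨Sum.inl q.1, q.2⟩).det = 0 ↔ False
      rw [iff_false]
      exact h4 _ _ (by simp)
  · rintro (j | p) (i | q) h
    · exact hne j i h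
    · change A j = C ⟨Sum.inl q.1, q.2⟩ at h
      by_cases hc : q.1 = j
      · apply h2 ⟨Sum.inl q.1, q.2⟩
        rw [← h]
        show A j = A q.1
        rw [hc]
      · apply h3 ⟨Sum.inl q.1, q.2⟩ (Sum.inl j) (fun h' => hc (by simpa using h'.symm))
        rw [← h]
        simp
    · change C ⟨Sum.inr p.1, p.2⟩ = B i at h
      by_cases hc : p.1 = i
      · apply h2 ⟨Sum.inr p.1, p.2⟩
        rw [h]
        show B i = B p.1
        rw [hc]
      · apply h3 ⟨Sum.inr p.1, p.2⟩ (Sum.inr i) (fun h' => hc (by simpa using h'.symm))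
        rw [h]
        simp
    · change C ⟨Sum.inr p.1, p.2⟩ = C ⟨Sum.inl q.1, q.2⟩ at h
      apply h4 ⟨Sum.inr p.1, p.2⟩ ⟨Sum.inl q.1, q.2⟩ (by simp)
      rw [h, sub_self, Matrix.det_zero]

open Filter MvPolynomial in
/-- the lines of a deformation, as vertices of a graph with pendant vertices -/
theorem lift_graph {K : Type*} [Field K] [IsAlgClosed K] (V : ValuationSubring K) {k : Type*}
    [Field k] (θ : k →+* IsLocalRing.ResidueField V) {J M : Type} [Fintype J] [Fintype M]
    (f : J ⊕ M → ℕ) (G : J → M → Prop)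
    {c : Cfg k (J ⊕ (Σ i : M, Fin (f (Sum.inr i)))) (M ⊕ (Σ j : J, Fin (f (Sum.inl j))))} {e : ℕ}
    {E : Finset ((J ⊕ (Σ i : M, Fin (f (Sum.inr i)))) × (M ⊕ (Σ j : J, Fin (f (Sum.inl j)))))}
    (hE : ∀ j i, (j, i) ∈ E ↔ GP f G j i)
    (hc : c.Good e E) (he : 2 * E.card + 1 < e) {I : Ideal (Pl K)} (hI : Hom I)
    (h : ∀ᶠ m in atTop, ∀ p ∈ Fm _ m, p ∈ red V I ↔ p ∈ (c.map θ).J0) :
    ∃ (A : J → Matrix (Fin 2) (Fin 2) V) (B : M → Matrix (Fin 2) (Fin 2) V)
      (L : (J ⊕ M) ⊕ (Σ u : J ⊕ M, Fin (f u)) → Matrix (Fin 2) (Fin 2) K),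
      (∀ j, (A j).map (IsLocalRing.residue V) = (c.A (Sum.inl j)).map θ) ∧
      (∀ i, (B i).map (IsLocalRing.residue V) = (c.B (Sum.inl i)).map θ) ∧
      (∀ j j', j ≠ j' → (A j - A j').det ≠ 0) ∧
      (∀ j i, G j i → (A j - B i).det = 0) ∧
      (∀ j, L (Sum.inl (Sum.inl j)) = (A j).map V.subtype) ∧
      (∀ i, L (Sum.inl (Sum.inr i)) = (B i).map V.subtype) ∧
      Function.Injective L ∧
      Set.range L = {C | ∀ᶠ m in atTop, ∀ p ∈ Fm K m, p ∈ I → p ∈ Lam C} ∧
      (∀ u v, (L u ≠ L v ∧ (L u - L v).det = 0) ↔ GG f (G2 G) u v) := by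
  obtain ⟨A, B, hA, hB, h1, h2, h3, h4, h5⟩ := lift_gen V θ hc he hI h
  have hinj : Function.Injective V.subtype := Subtype.val_injective
  have hmi : ∀ X Y : Matrix (Fin 2) (Fin 2) V, X.map V.subtype = Y.map V.subtype → X = Y := by
    intro X Y h1
    ext a b
    exact congrArg (fun M => M a b) h1
  have hd0 : ∀ X Y : Matrix (Fin 2) (Fin 2) V, (X.map V.subtype - Y.map V.subtype).det = 0 ↔
      (X - Y).det = 0 := by
    intro X Y
    rw [det_map_sub']
    exact map_eq_zero_iff V.subtype hinj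
  have hAinj : ∀ j j', A j = A j' → j = j' := by
    intro j j' hjj
    by_contra hc
    apply h1 j j' hc
    rw [hjj, sub_self, Matrix.det_zero]
  have hBinj : ∀ j j', B j = B j' → j = j' := by
    intro j j' hjj
    by_contra hc
    apply h2 j j' hc
    rw [hjj, sub_self, Matrix.det_zero]
  -- lifts indexed by vertices
  obtain ⟨LV, hLV⟩ : ∃ LV : (J ⊕ M) ⊕ (Σ u : J ⊕ M, Fin (f u)) → Matrix (Fin 2) (Fin 2) V,
      LV = fun u => match u with
        | Sum.inl (Sum.inl j) => A (Sum.inl j)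
        | Sum.inl (Sum.inr i) => B (Sum.inl i)
        | Sum.inr ⟨Sum.inl j, b⟩ => B (Sum.inr ⟨j, b⟩)
        | Sum.inr ⟨Sum.inr i, a⟩ => A (Sum.inr ⟨i, a⟩) := ⟨_, rfl⟩
  have hLVinj : Function.Injective LV := by
    rw [hLV]
    rintro ((j | i) | ⟨(j | i), a⟩) ((j' | i') | ⟨(j' | i'), a'⟩) huv
    · have := hAinj _ _ huv
      simpa using this
    · exact absurd huv (h4 _ _)
    · exact absurd huv (h4 _ _)
    · have := hAinj _ _ huv
      simp at this
    · exact absurd huv.symm (h4 _ _)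
    · have := hBinj _ _ huv
      simpa using this
    · have := hBinj _ _ huv
      simp at this
    · exact absurd huv.symm (h4 _ _)
    · exact absurd huv.symm (h4 _ _)
    · have := hBinj _ _ huv
      simp at this
    · have := hBinj _ _ huv
      simp only [Sum.inr.injEq, Sigma.mk.injEq] at this
      obtain ⟨rfl, h⟩ := this
      rw [eq_of_heq h]
    · exact absurd huv.symm (h4 _ _)
    · have := hAinj _ _ huv
      simp at this
    · exact absurd huv (h4 _ _)
    · exact absurd huv (h4 _ _)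
    · have := hAinj _ _ huv
      simp only [Sum.inr.injEq, Sigma.mk.injEq] at this
      obtain ⟨rfl, h⟩ := this
      rw [eq_of_heq h]
  refine ⟨fun j => A (Sum.inl j), fun i => B (Sum.inl i), fun u => (LV u).map V.subtype,
    fun j => hA _, fun i => hB _, ?_, ?_, ?_, ?_, ?_, ?_, ?_⟩
  · intro j j' hjj
    exact h1 _ _ (fun h => hjj (by simpa using h))
  · intro j i hji
    rw [h3, hE]
    exact hji
  · intro j
    rw [hLV]
  · intro i
    rw [hLV]
  · intro u v huv
    exact hLVinj (hmi _ _ huv)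
  · ext C
    rw [Set.mem_ofPred_eq, h5 C]
    constructor
    · rintro ⟨u, rfl⟩
      rcases u with (j | i) | ⟨(j | i), a⟩
      · exact Or.inl ⟨Sum.inl j, by rw [hLV]⟩
      · exact Or.inr ⟨Sum.inl i, by rw [hLV]⟩
      · exact Or.inr ⟨Sum.inr ⟨j, a⟩, by rw [hLV]⟩
      · exact Or.inl ⟨Sum.inr ⟨i, a⟩, by rw [hLV]⟩
    · rintro (⟨j | p, rfl⟩ | ⟨i | q, rfl⟩)
      · exact ⟨Sum.inl (Sum.inl j), by simp only [hLV]⟩
      · exact ⟨Sum.inr ⟨Sum.inr p.1, p.2⟩, by simp only [hLV]⟩
      · exact ⟨Sum.inl (Sum.inr i), by simp only [hLV]⟩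
      · exact ⟨Sum.inr ⟨Sum.inl q.1, q.2⟩, by simp only [hLV]⟩
  · intro u v
    have e1 : (LV u).map V.subtype ≠ (LV v).map V.subtype ↔ u ≠ v :=
      ⟨fun h h' => h (by rw [h']), fun h h' => h (hLVinj (hmi _ _ h'))⟩
    rw [e1, hd0]
    have hAA : ∀ j j', (A j - A j').det = 0 → j = j' := fun j j' h => by
      by_contra hc
      exact h1 j j' hc h
    have hBB : ∀ j j', (B j - B j').det = 0 → j = j' := fun j j' h => by
      by_contra hc
      exact h2 j j' hc h
    have hAB : ∀ j i, (A j - B i).det = 0 ↔ GP f G j i := fun j i => by rw [h3, hE]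
    have hBA : ∀ j i, (B i - A j).det = 0 ↔ GP f G j i := fun j i => by rw [det_comm', h3, hE]
    rw [hLV]
    rcases u with (j | i) | ⟨(j | i), a⟩ <;> rcases v with (j' | i') | ⟨(j' | i'), a'⟩
    · simp only [GG, G2, iff_false, not_and]
      intro h h'
      have := hAA _ _ h'
      simp only [Sum.inl.injEq] at this
      exact h (by rw [this])
    · simp only [GG, G2]
      rw [hAB]
      exact ⟨fun h => h.2, fun h => ⟨by simp, h⟩⟩
    · simp only [GG]
      rw [hAB]
      simp [GP]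
    · simp only [GG]
      constructor
      · rintro ⟨-, h⟩
        have := hAA _ _ h
        simp at this
      · intro h
        simp at h
    · simp only [GG, G2]
      rw [hBA]
      exact ⟨fun h => h.2, fun h => ⟨by simp, h⟩⟩
    · simp only [GG, G2, iff_false, not_and]
      intro h h'
      have := hBB _ _ h'
      simp only [Sum.inl.injEq] at this
      exact h (by rw [this])
    · simp only [GG]
      constructor
      · rintro ⟨-, h⟩
        have := hBB _ _ h
        simp at this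
      · intro h
        simp at h
    · simp only [GG]
      rw [hBA]
      simp [GP]
    · simp only [GG]
      rw [hBA]
      simp [GP]
    · simp only [GG]
      constructor
      · rintro ⟨-, h⟩
        have := hBB _ _ h
        simp at this
      · intro h
        simp at h
    · simp only [GG, iff_false, not_and]
      intro h h'
      have := hBB _ _ h'
      simp only [Sum.inr.injEq, Sigma.mk.injEq] at this
      obtain ⟨rfl, h1⟩ := this
      exact h (by rw [eq_of_heq h1])
    · simp only [GG]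
      rw [hBA]
      simp [GP]
    · simp only [GG]
      constructor
      · rintro ⟨-, h⟩
        have := hAA _ _ h
        simp at this
      · intro h
        simp at h
    · simp only [GG]
      rw [hAB]
      simp [GP]
    · simp only [GG]
      rw [hAB]
      simp [GP]
    · simp only [GG, iff_false, not_and]
      intro h h'
      have := hAA _ _ h'
      simp only [Sum.inr.injEq, Sigma.mk.injEq] at this
      obtain ⟨rfl, h1⟩ := this
      exact h (by rw [eq_of_heq h1])

end Pool.Agent.H918R2
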