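import Mathlib
import Pool.Agent.H918R2.Real2

set_option autoImplicit false

namespace Pool.Agent.H918R2

/-- index set of the points: the grid `S × S` and the points `(1 : 0 : 0)`, `(0 : 1 : 0)`,
`(1 : 1 : 0)` at infinity -/
abbrev IS {k : Type} (S : Finset k) : Type := (S × S) ⊕ Fin 3

/-- index set of the lines: the line at infinity and the lines `x = c`, `y = c`, `y = x + c`,
`y = c x` for `c ∈ S` -/
abbrev LS {k : Type} (S : Finset k) : Type := Unit ⊕ (S ⊕ (S ⊕ (S ⊕ S)))

section defs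

variable {k : Type} [Field k] (S : Finset k)

/-- coordinates of the points -/
def ptS : IS S → Fin 3 → k
  | Sum.inl (a, b) => ![(a : k), (b : k), 1]
  | Sum.inr 0 => ![1, 0, 0]
  | Sum.inr 1 => ![0, 1, 0]
  | Sum.inr 2 => ![1, 1, 0]

/-- coordinates of the lines -/
def lnS : LS S → Fin 3 → k
  | Sum.inl _ => ![0, 0, 1]
  | Sum.inr (Sum.inl c) => ![1, 0, -(c : k)]
  | Sum.inr (Sum.inr (Sum.inl c)) => ![0, 1, -(c : k)]
  | Sum.inr (Sum.inr (Sum.inr (Sum.inl c))) => ![1, -1, (c : k)]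
  | Sum.inr (Sum.inr (Sum.inr (Sum.inr c))) => ![(c : k), -1, 0]

theorem ptS_ne : ∀ i, ptS S i ≠ 0 := by
  rintro (⟨a, b⟩ | i) h
  · have := congrFun h 2; simp [ptS] at this
  · fin_cases i
    · have := congrFun h 0; simp [ptS] at this
    · have := congrFun h 1; simp [ptS] at this
    · have := congrFun h 0; simp [ptS] at this

theorem lnS_ne : ∀ i, lnS S i ≠ 0 := by
  rintro (i | (i | (i | (i | i)))) h
  · have := congrFun h 2; simp [lnS] at this
  · have := congrFun h 0; simp [lnS] at this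
  · have := congrFun h 1; simp [lnS] at this
  · have := congrFun h 0; simp [lnS] at this
  · have := congrFun h 1; simp [lnS] at this

theorem cr_ptS : ∀ i j, i ≠ j → cr (ptS S i) (ptS S j) ≠ 0 := by
  rintro (⟨a, b⟩ | i) (⟨c, d⟩ | j) hij h
  · apply hij
    have h0 := congrFun h 0
    have h1 := congrFun h 1
    simp [ptS, cr] at h0 h1
    have e1 : a = c := Subtype.ext (by linear_combination - h1)
    have e2 : b = d := Subtype.ext (by linear_combination h0)
    rw [e1, e2]
  · fin_cases j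
    · have := congrFun h 1; simp [ptS, cr] at this
    · have := congrFun h 0; simp [ptS, cr] at this
    · have := congrFun h 0; simp [ptS, cr] at this
  · fin_cases i
    · have := congrFun h 1; simp [ptS, cr] at this
    · have := congrFun h 0; simp [ptS, cr] at this
    · have := congrFun h 0; simp [ptS, cr] at this
  · have h2 := congrFun h 2
    fin_cases i <;> fin_cases j <;> simp [ptS, cr] at h2 hij

end defs

theorem d3_smul {K : Type*} [CommRing K] (a b c : K) (x y z : Fin 3 → K) :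
    d3 (a • x) (b • y) (c • z) = a * b * c * d3 x y z := by
  simp only [d3, Pi.smul_apply, smul_eq_mul]; ring

/-- properties of the coordinate function of a configuration -/
structure PHom {k K : Type*} [Field k] [Field K] (S : Finset k) (x : S → K) : Prop where
  zero : ∀ a : S, (a : k) = 0 → x a = 0
  one : ∀ a : S, (a : k) = 1 → x a = 1
  add : ∀ a b c : S, (a : k) + b = c → x a + x b = x c
  mul : ∀ a b c : S, (a : k) * b = c → x a * x b = x c

/-- von Staudt constructions -/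
theorem stau {k : Type} {K : Type*} [Field k] [Field K] (S : Finset k)
    (h0 : (0 : k) ∈ S) (h1 : (1 : k) ∈ S) (u : IS S → Fin 3 → K)
    (hz : ∀ x y z, (∃ l, dt (lnS S l) (ptS S x) = 0 ∧ dt (lnS S l) (ptS S y) = 0 ∧
      dt (lnS S l) (ptS S z) = 0) → d3 (u x) (u y) (u z) = 0)
    (hn : ∀ x y z, d3 (ptS S x) (ptS S y) (ptS S z) ≠ 0 → d3 (u x) (u y) (u z) ≠ 0)
    (e0 : u (Sum.inr 0) = ![1, 0, 0]) (e1 : u (Sum.inr 1) = ![0, 1, 0])
    (e2 : u (Sum.inl (⟨0, h0⟩, ⟨0, h0⟩)) = ![0, 0, 1]) :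
    PHom S (fun a => (u (Sum.inl (a, ⟨0, h0⟩)) 0 * u (Sum.inl (⟨1, h1⟩, ⟨0, h0⟩)) 2) /
      (u (Sum.inl (a, ⟨0, h0⟩)) 2 * u (Sum.inl (⟨1, h1⟩, ⟨0, h0⟩)) 0)) := by
  obtain ⟨P, hP⟩ : ∃ P : S → S → Fin 3 → K, ∀ a b, P a b = u (Sum.inl (a, b)) :=
    ⟨_, fun a b => rfl⟩
  obtain ⟨D, hD⟩ : ∃ D : Fin 3 → K, D = u (Sum.inr 2) := ⟨_, rfl⟩
  obtain ⟨o, ho⟩ : ∃ o : S, o = ⟨0, h0⟩ := ⟨_, rfl⟩
  obtain ⟨i, hi⟩ : ∃ i : S, i = ⟨1, h1⟩ := ⟨_, rfl⟩
  have ho' : (o : k) = 0 := by rw [ho]
  have hi' : (i : k) = 1 := by rw [hi]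
  rw [← ho] at e2 ⊢
  rw [← hi]
  simp only [← hP]
  rw [← hP] at e2
  have P2 : ∀ a b, P a b 2 ≠ 0 := by
    intro a b
    have := hn (Sum.inr 0) (Sum.inr 1) (Sum.inl (a, b)) (by simp [d3, ptS])
    rw [e0, e1, ← hP] at this
    simpa [d3] using this
  have D2 : D 2 = 0 := by
    have := hz (Sum.inr 0) (Sum.inr 1) (Sum.inr 2)
      ⟨Sum.inl (), by simp [dt, lnS, ptS], by simp [dt, lnS, ptS], by simp [dt, lnS, ptS]⟩
    rw [e0, e1, ← hD] at this
    simpa [d3] using this
  have D1 : D 1 ≠ 0 := by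
    have := hn (Sum.inr 0) (Sum.inl (o, o)) (Sum.inr 2) (by simp [d3, ptS])
    rw [e0, ← hP, e2, ← hD] at this
    simpa [d3] using this
  have D0 : D 0 ≠ 0 := by
    have := hn (Sum.inr 1) (Sum.inl (o, o)) (Sum.inr 2) (by simp [d3, ptS])
    rw [e1, ← hP, e2, ← hD] at this
    simpa [d3] using this
  have Pa1 : ∀ a, P a o 1 = 0 := by
    intro a
    have := hz (Sum.inr 0) (Sum.inl (o, o)) (Sum.inl (a, o))
      ⟨Sum.inr (Sum.inr (Sum.inl o)), by simp [dt, lnS, ptS], by simp [dt, lnS, ptS],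
        by simp [dt, lnS, ptS]⟩
    rw [e0, ← hP, ← hP, e2] at this
    simpa [d3] using this
  have P0b : ∀ b, P o b 0 = 0 := by
    intro b
    have := hz (Sum.inr 1) (Sum.inl (o, o)) (Sum.inl (o, b))
      ⟨Sum.inr (Sum.inl o), by simp [dt, lnS, ptS], by simp [dt, lnS, ptS],
        by simp [dt, lnS, ptS]⟩
    rw [e1, ← hP, ← hP, e2] at this
    simpa [d3] using this
  have Px : ∀ a b, P a o 0 * P a b 2 = P a o 2 * P a b 0 := by
    intro a b
    have := hz (Sum.inr 1) (Sum.inl (a, o)) (Sum.inl (a, b))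
      ⟨Sum.inr (Sum.inl a), by simp [dt, lnS, ptS], by simp [dt, lnS, ptS],
        by simp [dt, lnS, ptS]⟩
    rw [e1, ← hP, ← hP] at this
    simp [d3] at this
    linear_combination - this
  have Py : ∀ a b, P o b 1 * P a b 2 = P o b 2 * P a b 1 := by
    intro a b
    have := hz (Sum.inr 0) (Sum.inl (o, b)) (Sum.inl (a, b))
      ⟨Sum.inr (Sum.inr (Sum.inl b)), by simp [dt, lnS, ptS], by simp [dt, lnS, ptS],
        by simp [dt, lnS, ptS]⟩
    rw [e0, ← hP, ← hP] at this
    simp [d3] at this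
    linear_combination this
  have Pi0 : P i o 0 ≠ 0 := by
    have := hn (Sum.inr 1) (Sum.inl (o, o)) (Sum.inl (i, o)) (by simp [d3, ptS, ho', hi'])
    rw [e1, ← hP, ← hP, e2] at this
    simpa [d3] using this
  obtain ⟨X, hX⟩ : ∃ X : S → K, ∀ a, X a = P a o 0 / P a o 2 := ⟨_, fun a => rfl⟩
  obtain ⟨Y, hY⟩ : ∃ Y : S → K, ∀ a, Y a = P o a 1 / P o a 2 := ⟨_, fun a => rfl⟩
  have hXi : X i ≠ 0 := by rw [hX]; exact div_ne_zero Pi0 (P2 _ _)
  have hPab : ∀ a b, P a b = P a b 2 • ![X a, Y b, 1] := by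
    intro a b
    have p1 := P2 a b
    have p2 := P2 a o
    have p3 := P2 o b
    ext s
    fin_cases s
    · show P a b 0 = P a b 2 * X a
      rw [hX]
      field_simp
      linear_combination - Px a b
    · show P a b 1 = P a b 2 * Y b
      rw [hY]
      field_simp
      linear_combination - Py a b
    · show P a b 2 = P a b 2 * 1
      ring
  have hDD : D = (1 : K) • ![D 0, D 1, 0] := by
    ext s
    fin_cases s
    · simp
    · simp
    · simpa using D2
  have Xo : X o = 0 := by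
    rw [hX, e2]; simp
  have Yo : Y o = 0 := by
    rw [hY, e2]; simp
  have diag : ∀ a, Y a * D 0 = X a * D 1 := by
    intro a
    have := hz (Sum.inl (a, a)) (Sum.inl (o, o)) (Sum.inr 2)
      ⟨Sum.inr (Sum.inr (Sum.inr (Sum.inl o))), by simp [dt, lnS, ptS, ho'],
        by simp [dt, lnS, ptS, ho'], by simp [dt, lnS, ptS]⟩
    rw [← hP, ← hP, ← hD, hPab a a, hPab o o, hDD, d3_smul, Xo, Yo] at this
    have h2 := (mul_eq_zero.1 this).resolve_left
      (mul_ne_zero (mul_ne_zero (P2 _ _) (P2 _ _)) one_ne_zero)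
    simp [d3] at h2
    linear_combination h2
  have hadd : ∀ a b c : S, (a : k) + b = c → X a + X b = X c := by
    intro a b c habc
    have := hz (Sum.inl (o, b)) (Sum.inl (a, c)) (Sum.inr 2)
      ⟨Sum.inr (Sum.inr (Sum.inr (Sum.inl b))), by simp [dt, lnS, ptS, ho'],
        by simp [dt, lnS, ptS, ← habc], by simp [dt, lnS, ptS]⟩
    rw [← hP, ← hP, ← hD, hPab o b, hPab a c, hDD, d3_smul, Xo] at this
    have h2 := (mul_eq_zero.1 this).resolve_left
      (mul_ne_zero (mul_ne_zero (P2 _ _) (P2 _ _)) one_ne_zero)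
    simp [d3] at h2
    have h3 := diag b
    have h4 := diag c
    apply mul_right_cancel₀ D1
    linear_combination h2 - h3 + h4
  have hmul : ∀ a b c : S, (a : k) * b = c → X a * X b = X c * X i := by
    intro a b c habc
    have := hz (Sum.inl (o, o)) (Sum.inl (i, a)) (Sum.inl (b, c))
      ⟨Sum.inr (Sum.inr (Sum.inr (Sum.inr a))), by simp [dt, lnS, ptS, ho'],
        by simp [dt, lnS, ptS, hi'], by simp [dt, lnS, ptS, ← habc]⟩
    rw [← hP, ← hP, ← hP, hPab o o, hPab i a, hPab b c, d3_smul, Xo, Yo] at this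
    have h2 := (mul_eq_zero.1 this).resolve_left
      (mul_ne_zero (mul_ne_zero (P2 _ _) (P2 _ _)) (P2 _ _))
    simp [d3] at h2
    have h3 := diag a
    have h4 := diag c
    apply mul_right_cancel₀ D1
    linear_combination (- D 0) * h2 - X b * h3 + X i * h4
  have hx : ∀ a, (P a o 0 * P i o 2) / (P a o 2 * P i o 0) = X a / X i := by
    intro a
    rw [hX, hX]
    have p1 := P2 a o
    have p2 := P2 i o
    field_simp
  refine ⟨?_, ?_, ?_, ?_⟩
  · intro a ha
    have : a = o := Subtype.ext (by rw [ha, ho'])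
    simp only [hx]
    rw [this, Xo, zero_div]
  · intro a ha
    have : a = i := Subtype.ext (by rw [ha, hi'])
    simp only [hx]
    rw [this, div_self hXi]
  · intro a b c habc
    simp only [hx]
    rw [← hadd a b c habc, add_div]
  · intro a b c habc
    simp only [hx]
    have := hmul a b c habc
    field_simp
    linear_combination this

end Pool.Agent.H918R2
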