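import Mathlib
import Pool.Agent.H918R2.Stau

set_option autoImplicit false

open Polynomial

namespace Pool.Agent.H918R2

variable {k : Type} [Field k]

/-- a finite set of partial results computes the value of `g` at `α` -/
def Comp (α : k) (g : ℤ[X]) (T : Finset k) : Prop :=
  ∀ S : Finset k, T ⊆ S → (0 : k) ∈ S → (1 : k) ∈ S → ∀ (hα : α ∈ S) (h : aeval α g ∈ S)
    (K : Type) [Field K] (x : S → K), PHom S x → x ⟨aeval α g, h⟩ = aeval (x ⟨α, hα⟩) g

theorem comp_zero (α : k) : Comp α 0 ∅ := by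
  intro S _ h0 _ hα h K _ x hx
  exact (hx.zero _ (map_zero _)).trans (map_zero _).symm

theorem comp_one (α : k) : Comp α 1 ∅ := by
  intro S _ h0 _ hα h K _ x hx
  exact (hx.one _ (map_one _)).trans (map_one _).symm

theorem comp_X (α : k) : Comp α X ∅ := by
  intro S _ h0 _ hα h K _ x hx
  refine Eq.trans ?_ (aeval_X _).symm
  congr 1
  exact Subtype.ext (aeval_X _)

theorem comp_add [DecidableEq k] {α : k} {g g' : ℤ[X]} {T T' : Finset k} (h : Comp α g T)
    (h' : Comp α g' T') : Comp α (g + g') (T ∪ T' ∪ {aeval α g, aeval α g'}) := by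
  intro S hS h0 h1 hα hg K _ x hx
  have m1 : aeval α g ∈ S := hS (by simp)
  have m2 : aeval α g' ∈ S := hS (by simp)
  have e1 := h S (fun a ha => hS (by simp [ha])) h0 h1 hα m1 K x hx
  have e2 := h' S (fun a ha => hS (by simp [ha])) h0 h1 hα m2 K x hx
  refine Eq.trans ?_ (map_add _ _ _).symm
  rw [← e1, ← e2]
  exact (hx.add _ _ _ (map_add _ _ _).symm).symm

theorem comp_mul [DecidableEq k] {α : k} {g g' : ℤ[X]} {T T' : Finset k} (h : Comp α g T)
    (h' : Comp α g' T') : Comp α (g * g') (T ∪ T' ∪ {aeval α g, aeval α g'}) := by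
  intro S hS h0 h1 hα hg K _ x hx
  have m1 : aeval α g ∈ S := hS (by simp)
  have m2 : aeval α g' ∈ S := hS (by simp)
  have e1 := h S (fun a ha => hS (by simp [ha])) h0 h1 hα m1 K x hx
  have e2 := h' S (fun a ha => hS (by simp [ha])) h0 h1 hα m2 K x hx
  refine Eq.trans ?_ (map_mul _ _ _).symm
  rw [← e1, ← e2]
  exact (hx.mul _ _ _ (map_mul _ _ _).symm).symm

theorem comp_neg [DecidableEq k] {α : k} {g : ℤ[X]} {T : Finset k} (h : Comp α g T) :
    Comp α (-g) (T ∪ {aeval α g}) := by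
  intro S hS h0 h1 hα hg K _ x hx
  have m1 : aeval α g ∈ S := hS (by simp)
  have e1 := h S (fun a ha => hS (by simp [ha])) h0 h1 hα m1 K x hx
  have e2 := hx.add ⟨aeval α (-g), hg⟩ ⟨aeval α g, m1⟩ ⟨0, h0⟩ (by simp)
  rw [hx.zero ⟨0, h0⟩ rfl, e1] at e2
  refine Eq.trans ?_ (map_neg _ _).symm
  linear_combination e2

theorem exists_comp (α : k) (g : ℤ[X]) : ∃ T, Comp α g T := by
  classical
  have hnat : ∀ n : ℕ, ∃ T, Comp α (C (n : ℤ)) T := by
    intro n
    induction n with
    | zero => exact ⟨∅, by simpa using comp_zero α⟩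
    | succ n ih =>
      obtain ⟨T, hT⟩ := ih
      have := comp_add hT (comp_one α)
      rw [show C ((n : ℤ)) + 1 = C (((n + 1 : ℕ) : ℤ)) by push_cast; rw [C_add, C_1]] at this
      exact ⟨_, this⟩
  have hC : ∀ n : ℤ, ∃ T, Comp α (C n) T := by
    intro n
    obtain ⟨m, rfl | rfl⟩ := n.eq_nat_or_neg
    · exact hnat m
    · obtain ⟨T, hT⟩ := hnat m
      have := comp_neg hT
      rw [← C_neg] at this
      exact ⟨_, this⟩
  induction g using Polynomial.induction_on with
  | C a => exact hC a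
  | add p q hp hq =>
    obtain ⟨T, hT⟩ := hp
    obtain ⟨T', hT'⟩ := hq
    exact ⟨_, comp_add hT hT'⟩
  | monomial n a ih =>
    obtain ⟨T, hT⟩ := ih
    have := comp_mul hT (comp_X α)
    rw [show C a * X ^ n * X = C a * X ^ (n + 1) by rw [pow_succ, mul_assoc]] at this
    exact ⟨_, this⟩

/-- for algebraic numbers there is a finite set of partial results which forces the coordinate of
the number to be a root of the same integral polynomial -/
theorem exists_grid [CharZero k] (α : k) (hα : IsAlgebraic ℚ α) :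
    ∃ (S : Finset k) (_ : (0 : k) ∈ S) (_ : (1 : k) ∈ S) (hα : α ∈ S) (g : ℤ[X]),
      g ≠ 0 ∧ aeval α g = 0 ∧ ∀ (K : Type) [Field K] (x : S → K), PHom S x →
        aeval (x ⟨α, hα⟩) g = 0 := by
  classical
  have hα' : IsAlgebraic ℤ α := (IsFractionRing.isAlgebraic_iff ℤ ℚ k).2 hα
  obtain ⟨g, hg0, hg⟩ := hα'
  obtain ⟨T, hT⟩ := exists_comp α g
  refine ⟨T ∪ {0, 1, α}, by simp, by simp, by simp, g, hg0, hg, ?_⟩
  intro K _ x hx
  have h0 : (0 : k) ∈ T ∪ {0, 1, α} := by simp
  rw [← hT _ Finset.subset_union_left h0 (by simp) (by simp) (by rw [hg]; exact h0) K x hx]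
  exact hx.zero _ hg

end Pool.Agent.H918R2
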