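import Mathlib
import Pool.Agent.H918R2.Gal1
import Pool.Agent.H918R2.PolyS

set_option autoImplicit false

open MvPolynomial Filter
open Pool.Agent.Helper947.Crv

namespace Pool.Agent.H918R2

/-- index set of the double lines, without pendant lines -/
abbrev JS {k : Type} (S : Finset k) : Type := Fin 2 ⊕ LS S

/-- index set of the simple lines, without pendant lines -/
abbrev MS {k : Type} (S : Finset k) : Type := Option (IS S)

/-- numbers of pendant lines -/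
noncomputable def fS {k : Type} (S : Finset k) (u : JS S ⊕ MS S) : ℕ :=
  (Fintype.equivFin (JS S ⊕ MS S) u : ℕ) + 2

theorem fS_inj {k : Type} (S : Finset k) : Function.Injective (fS S) := by
  intro u v h
  unfold fS at h
  exact (Fintype.equivFin _).injective (Fin.ext (by omega))

theorem fS_two {k : Type} (S : Finset k) (u : JS S ⊕ MS S) : 2 ≤ fS S u := by
  unfold fS
  omega

/-- index set of the double lines -/
abbrev JP {k : Type} (S : Finset k) : Type := JS S ⊕ (Σ i : MS S, Fin (fS S (Sum.inr i)))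

/-- index set of the simple lines -/
abbrev MP {k : Type} (S : Finset k) : Type := MS S ⊕ (Σ j : JS S, Fin (fS S (Sum.inl j)))

open Classical in
/-- the pairs of lines which meet -/
noncomputable def ES {k : Type} [Field k] (S : Finset k) : Finset (JP S × MP S) :=
  Finset.univ.filter fun x => GP (fS S) (incR (ptS S) (lnS S)) x.1 x.2

theorem mem_ES {k : Type} [Field k] (S : Finset k) (j : JP S) (i : MP S) :
    (j, i) ∈ ES S ↔ GP (fS S) (incR (ptS S) (lnS S)) j i := by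
  simp only [ES, Finset.mem_filter, Finset.mem_univ, true_and]

/-- good configurations given by finite sets of numbers -/
theorem exists_cfgS {k : Type} [Field k] [Infinite k] (S : Finset k) {e : ℕ}
    (he : Fintype.card (MP S) < e) :
    ∃ cfg : Cfg k (JP S) (MP S), cfg.Good e (ES S) ∧
      ∃ (c : k) (t : IS S → k), c ≠ 0 ∧ (∀ i, t i ≠ 0) ∧ ∀ a b d : IS S,
        d4 (bv (cfg.A (Sum.inl (Sum.inl 0))) (cfg.B (Sum.inl none)))
          (bv (cfg.A (Sum.inl (Sum.inl 0))) (cfg.B (Sum.inl (some a))))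
          (bv (cfg.A (Sum.inl (Sum.inl 0))) (cfg.B (Sum.inl (some b))))
          (bv (cfg.A (Sum.inl (Sum.inl 0))) (cfg.B (Sum.inl (some d)))) =
          c * (t a * t b * t d) * d3 (ptS S a) (ptS S b) (ptS S d) := by
  classical
  have hne : Nonempty (IS S) := ⟨Sum.inr 0⟩
  obtain ⟨A, B, h1, h2, h3, h4, c, t, hc, ht, h5⟩ := exists_planar (ptS S) (lnS S) (ptS_ne S)
    (lnS_ne S) (cr_ptS S)
  obtain ⟨A', B', ha, hb, h1', h2', h3', h4'⟩ := exists_pend2 A B h1 h2 _ h3 h4 (fS S)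
  obtain ⟨p, q, hpq⟩ := exists_trm A' B' h4'
  refine ⟨mkCfg (fun j => trm p q (A' j)) (fun i => trm p q (B' i)) (ES S) e, ?_, c, t, hc, ht, ?_⟩
  · refine good_of _ _ _ he ?_ ?_ ?_ ?_
    · intro j j' hj
      rw [det_trm]
      exact h1' j j' hj
    · intro j j' hj
      rw [det_trm]
      exact h2' j j' hj
    · intro j i
      rw [det_trm, mem_ES, h3']
    · intro j i _
      exact hpq j i
  · intro a b d
    rw [← h5 a b d, ← ha, ← hb, ← hb, ← hb, ← hb]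
    exact d4_trm p q _ _ _ _ _

/-- brackets of the points of a family of lines -/
noncomputable def D4 {k K : Type} [CommRing K] (S : Finset k)
    (L : JS S ⊕ MS S → Matrix (Fin 2) (Fin 2) K) (x y z : IS S) : K :=
  d4 (bv (L (Sum.inl (Sum.inl 0))) (L (Sum.inr none)))
    (bv (L (Sum.inl (Sum.inl 0))) (L (Sum.inr (some x))))
    (bv (L (Sum.inl (Sum.inl 0))) (L (Sum.inr (some y))))
    (bv (L (Sum.inl (Sum.inl 0))) (L (Sum.inr (some z))))

/-- the coordinate of a point, computed from a family of lines -/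
noncomputable def xval {k K : Type} [Field k] [Field K] (S : Finset k) (h0 : (0 : k) ∈ S)
    (h1 : (1 : k) ∈ S) (L : JS S ⊕ MS S → Matrix (Fin 2) (Fin 2) K) (a : S) : K :=
  (D4 S L (Sum.inl (a, ⟨0, h0⟩)) (Sum.inr 1) (Sum.inl (⟨0, h0⟩, ⟨0, h0⟩)) *
    D4 S L (Sum.inr 0) (Sum.inr 1) (Sum.inl (⟨1, h1⟩, ⟨0, h0⟩))) /
  (D4 S L (Sum.inr 0) (Sum.inr 1) (Sum.inl (a, ⟨0, h0⟩)) *
    D4 S L (Sum.inl (⟨1, h1⟩, ⟨0, h0⟩)) (Sum.inr 1) (Sum.inl (⟨0, h0⟩, ⟨0, h0⟩)))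

/-- the coordinate of a root of a polynomial is known -/
theorem xval_eq {k : Type} [Field k] [IsAlgClosed k] [CharZero k] (S : Finset k)
    (h0 : (0 : k) ∈ S) (h1 : (1 : k) ∈ S) {α : k} (hα : α ∈ S) {g : Polynomial ℤ} (hg0 : g ≠ 0)
    (hgx : ∀ (K : Type) [Field K] (x : S → K), PHom S x → Polynomial.aeval (x ⟨α, hα⟩) g = 0)
    {cfg : Cfg k (JP S) (MP S)} {e : ℕ} (hgood : cfg.Good e (ES S)) (he : 2 * (ES S).card + 1 < e)
    {c : k} {t : IS S → k} (hc : c ≠ 0) (ht : ∀ i, t i ≠ 0)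
    (hd : ∀ a b d : IS S,
        d4 (bv (cfg.A (Sum.inl (Sum.inl 0))) (cfg.B (Sum.inl none)))
          (bv (cfg.A (Sum.inl (Sum.inl 0))) (cfg.B (Sum.inl (some a))))
          (bv (cfg.A (Sum.inl (Sum.inl 0))) (cfg.B (Sum.inl (some b))))
          (bv (cfg.A (Sum.inl (Sum.inl 0))) (cfg.B (Sum.inl (some d)))) =
          c * (t a * t b * t d) * d3 (ptS S a) (ptS S b) (ptS S d))
    {K : Type} [Field K] [IsAlgClosed K] (V : ValuationSubring K) (s : k →+* V)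
    {I : Ideal (Pl K)} (hI : Hom I)
    (h : ∀ᶠ m in atTop, ∀ p ∈ Fm _ m, p ∈ red V I ↔
      p ∈ (cfg.map ((IsLocalRing.residue V).comp s)).J0) :
    ∃ L : (JS S ⊕ MS S) ⊕ (Σ u : JS S ⊕ MS S, Fin (fS S u)) → Matrix (Fin 2) (Fin 2) K,
      Function.Injective L ∧
      Set.range L = {C | ∀ᶠ m in atTop, ∀ p ∈ Fm K m, p ∈ I → p ∈ Lam C} ∧
      (∀ u v, (L u ≠ L v ∧ (L u - L v).det = 0) ↔
        GG (fS S) (G2 (incR (ptS S) (lnS S))) u v) ∧
      xval S h0 h1 (fun u => L (Sum.inl u)) ⟨α, hα⟩ = (s α : K) := by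
  classical
  obtain ⟨θ, hθ⟩ : ∃ θ, θ = (IsLocalRing.residue V).comp s := ⟨_, rfl⟩
  rw [← hθ] at h
  obtain ⟨A, B, L, hA, hB, hskA, hinc, hLA, hLB, hLinj, hLr, hLG⟩ :=
    lift_graph V θ (fS S) (incR (ptS S) (lnS S)) (mem_ES S) hgood he hI h
  refine ⟨L, hLinj, hLr, hLG, ?_⟩
  have hinj : Function.Injective V.subtype := Subtype.val_injective
  have hAne : ∀ j j', j ≠ j' → A j ≠ A j' := by
    intro j j' hj hh
    apply hskA j j' hj
    rw [hh, sub_self, Matrix.det_zero]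
  -- brackets over `V`
  obtain ⟨w0, hw0⟩ : ∃ w0, w0 = bv (A (Sum.inl 0)) (B none) := ⟨_, rfl⟩
  obtain ⟨w, hw⟩ : ∃ w : IS S → Fin 4 → V, ∀ i, w i = bv (A (Sum.inl 0)) (B (some i)) :=
    ⟨_, fun i => rfl⟩
  have hw1 : ∀ x y z : IS S, (∃ l, dt (lnS S l) (ptS S x) = 0 ∧ dt (lnS S l) (ptS S y) = 0 ∧
      dt (lnS S l) (ptS S z) = 0) → d4 w0 (w x) (w y) (w z) = 0 := by
    rintro x y z ⟨l, hx, hy, hz⟩
    have hs : ∀ i : IS S, dt (lnS S l) (ptS S i) = 0 → (A (Sum.inl 0) - B (some i)).det = 0 ∧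
        (A (Sum.inl 1) - B (some i)).det = 0 ∧ (A (Sum.inr l) - B (some i)).det = 0 :=
      fun i hi => ⟨hinc _ _ trivial, hinc _ _ trivial, hinc _ _ hi⟩
    have hn : (A (Sum.inl 0) - B none).det = 0 ∧
        (A (Sum.inl 1) - B none).det = 0 ∧ (A (Sum.inr l) - B none).det = 0 :=
      ⟨hinc _ _ trivial, hinc _ _ trivial, hinc _ _ trivial⟩
    rw [hw0, hw, hw, hw]
    exact d4_lift V (hskA (Sum.inl 0) (Sum.inl 1) (by simp))
      (hAne (Sum.inr l) (Sum.inl 0) (by simp))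
      (hAne (Sum.inr l) (Sum.inl 1) (by simp)) _ _ _ _ hn (hs x hx) (hs y hy) (hs z hz)
  have hw2 : ∀ x y z : IS S, IsLocalRing.residue V (d4 w0 (w x) (w y) (w z)) =
        θ (c * (t x * t y * t z) * d3 (ptS S x) (ptS S y) (ptS S z)) := by
    intro x y z
    have e1 : ∀ o : MS S, (fun s => IsLocalRing.residue V (bv (A (Sum.inl 0)) (B o) s)) =
        (fun s => θ (bv (cfg.A (Sum.inl (Sum.inl 0))) (cfg.B (Sum.inl o)) s)) := by
      intro o
      rw [← bv_map', ← bv_map', hA, hB]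
    rw [← d4_map, hw0, hw, hw, hw, e1 none, e1 (some x), e1 (some y), e1 (some z), d4_map, hd]
  have hD4 : ∀ x y z : IS S, D4 S (fun u => L (Sum.inl u)) x y z =
      V.subtype (d4 w0 (w x) (w y) (w z)) := by
    intro x y z
    unfold D4
    simp only [hLA, hLB]
    rw [bv_map', bv_map', bv_map', bv_map', d4_map, hw0, hw, hw, hw]
  have hn : ∀ x y z, d3 (ptS S x) (ptS S y) (ptS S z) ≠ 0 → d4 w0 (w x) (w y) (w z) ≠ 0 := by
    intro x y z hxyz h0
    have h1 := hw2 x y z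
    rw [h0, map_zero] at h1
    have h2 := (map_eq_zero θ).1 h1.symm
    exact mul_ne_zero (mul_ne_zero hc (mul_ne_zero (mul_ne_zero (ht x) (ht y)) (ht z))) hxyz h2
  have hn' : ∀ x y z, d3 (ptS S x) (ptS S y) (ptS S z) ≠ 0 →
      D4 S (fun u => L (Sum.inl u)) x y z ≠ 0 := by
    intro x y z hxyz h0
    rw [hD4] at h0
    exact hn x y z hxyz (hinj (by rw [h0, map_zero]))
  -- the coordinates
  have hpro := proj3 (bv (L (Sum.inl (Sum.inl (Sum.inl 0)))) (L (Sum.inl (Sum.inr none))))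
    (fun x : IS S => bv (L (Sum.inl (Sum.inl (Sum.inl 0)))) (L (Sum.inl (Sum.inr (some x)))))
    (Sum.inr 0) (Sum.inr 1) (Sum.inl (⟨0, h0⟩, ⟨0, h0⟩))
    (hn' (Sum.inr 0) (Sum.inr 1) (Sum.inl (⟨0, h0⟩, ⟨0, h0⟩)) (by simp [d3, ptS]))
  obtain ⟨u, hu, e0, e1, e2⟩ := hpro
  obtain ⟨κ, hκ⟩ : ∃ κ : K, κ = D4 S (fun u => L (Sum.inl u)) (Sum.inr 0) (Sum.inr 1)
    (Sum.inl (⟨0, h0⟩, ⟨0, h0⟩)) := ⟨_, rfl⟩
  have hκ0 : κ ≠ 0 := by rw [hκ]; exact hn' _ _ _ (by simp [d3, ptS])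
  have hu' : ∀ x y z, D4 S (fun u => L (Sum.inl u)) x y z = d3 (u x) (u y) (u z) * κ := by
    intro x y z
    rw [hκ]
    exact hu x y z
  have hst := stau S h0 h1 u
    (by
      intro x y z hl
      have h1 := hu' x y z
      rw [hD4, hw1 x y z hl, map_zero] at h1
      exact (mul_eq_zero.1 h1.symm).resolve_right hκ0)
    (by
      intro x y z hxyz h0
      have h1 := hu' x y z
      rw [h0, zero_mul] at h1
      exact hn' x y z hxyz h1) e0 e1 e2
  have hxv : ∀ a : S, xval S h0 h1 (fun u => L (Sum.inl u)) a =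
      (u (Sum.inl (a, ⟨0, h0⟩)) 0 * u (Sum.inl (⟨1, h1⟩, ⟨0, h0⟩)) 2) /
      (u (Sum.inl (a, ⟨0, h0⟩)) 2 * u (Sum.inl (⟨1, h1⟩, ⟨0, h0⟩)) 0) := by
    intro a
    unfold xval
    rw [hu', hu', hu', hu', e0, e1, e2]
    have q1 : ∀ v : Fin 3 → K, d3 v ![0, 1, 0] ![0, 0, 1] = v 0 := by
      intro v; simp [d3]
    have q2 : ∀ v : Fin 3 → K, d3 ![1, 0, 0] ![0, 1, 0] v = v 2 := by
      intro v; simp [d3]
    rw [q1, q1, q2, q2]
    have q3 : ∀ a b : K, a * κ * (b * κ) = a * b * (κ * κ) := fun a b => by ring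
    rw [q3, q3]
    exact mul_div_mul_right _ _ (mul_ne_zero hκ0 hκ0)
  have hroot := hgx K _ hst
  rw [← hxv] at hroot
  obtain ⟨ξ, hξ⟩ : ∃ ξ, ξ = xval S h0 h1 (fun u => L (Sum.inl u)) ⟨α, hα⟩ := ⟨_, rfl⟩
  rw [← hξ] at hroot ⊢
  -- the coordinate lies in `k`
  have hgk0 : g.map (Int.castRingHom k) ≠ 0 := by
    rw [Ne, Polynomial.map_eq_zero_iff (RingHom.injective_int _)]
    exact hg0
  obtain ⟨β, hβ⟩ : ∃ β : k, (V.subtype.comp s) β = ξ := by
    have h3 : ((g.map (Int.castRingHom k)).map (V.subtype.comp s)).IsRoot ξ := by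
      rw [Polynomial.map_map, Polynomial.IsRoot, Polynomial.eval_map]
      have : (V.subtype.comp s).comp (Int.castRingHom k) = algebraMap ℤ K :=
        RingHom.ext_int _ _
      rw [this]
      exact hroot
    exact (IsAlgClosed.splits (g.map (Int.castRingHom k))).mem_range_of_isRoot hgk0 h3
  -- comparison of residues
  obtain ⟨Nn, hNn⟩ : ∃ Nn : V, Nn = d4 w0 (w (Sum.inl (⟨α, hα⟩, ⟨0, h0⟩))) (w (Sum.inr 1))
      (w (Sum.inl (⟨0, h0⟩, ⟨0, h0⟩))) *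
    d4 w0 (w (Sum.inr 0)) (w (Sum.inr 1)) (w (Sum.inl (⟨1, h1⟩, ⟨0, h0⟩))) := ⟨_, rfl⟩
  obtain ⟨Dn, hDn⟩ : ∃ Dn : V, Dn = d4 w0 (w (Sum.inr 0)) (w (Sum.inr 1))
      (w (Sum.inl (⟨α, hα⟩, ⟨0, h0⟩))) *
    d4 w0 (w (Sum.inl (⟨1, h1⟩, ⟨0, h0⟩))) (w (Sum.inr 1)) (w (Sum.inl (⟨0, h0⟩, ⟨0, h0⟩))) :=
    ⟨_, rfl⟩
  have hND : ξ = V.subtype Nn / V.subtype Dn := by
    rw [hξ, hNn, hDn, map_mul, map_mul]
    unfold xval
    rw [hD4, hD4, hD4, hD4]
  have hp1 : ∀ a : S, d3 (ptS S (Sum.inl (a, ⟨0, h0⟩))) (ptS S (Sum.inr 1))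
      (ptS S (Sum.inl (⟨0, h0⟩, ⟨0, h0⟩))) = a := by
    intro a; simp [d3, ptS]
  have hp2 : ∀ a : S, d3 (ptS S (Sum.inr 0)) (ptS S (Sum.inr 1))
      (ptS S (Sum.inl (a, ⟨0, h0⟩))) = 1 := by
    intro a; simp [d3, ptS]
  have hrD : IsLocalRing.residue V Dn ≠ 0 := by
    rw [hDn, map_mul, hw2, hw2, hp2, hp1]
    have hcc : ∀ x y z : IS S, θ (c * (t x * t y * t z) * 1) ≠ 0 := by
      intro x y z
      rw [Ne, map_eq_zero]
      exact mul_ne_zero (mul_ne_zero hc (mul_ne_zero (mul_ne_zero (ht x) (ht y)) (ht z)))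
        one_ne_zero
    exact mul_ne_zero (hcc _ _ _) (hcc _ _ _)
  have hrN : IsLocalRing.residue V Nn = θ α * IsLocalRing.residue V Dn := by
    rw [hDn, hNn, map_mul, map_mul, hw2, hw2, hw2, hw2, hp2, hp2, hp1, hp1, ← map_mul, ← map_mul,
      ← map_mul]
    congr 1
    ring
  have hD0 : V.subtype Dn ≠ 0 := by
    intro h
    apply hrD
    rw [(map_eq_zero_iff V.subtype hinj).1 h, map_zero]
  have hNV : Nn = s β * Dn := by
    apply hinj
    rw [map_mul]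
    have h4 : V.subtype (s β) = ξ := hβ
    rw [h4, hND]
    field_simp
  have h5 : θ α = θ β := by
    rw [hNV, map_mul] at hrN
    have h6 := mul_right_cancel₀ hrD hrN
    rw [hθ] at h6 ⊢
    exact h6.symm
  rw [← hβ, θ.injective h5]
  rfl

end Pool.Agent.H918R2
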