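import Mathlib
import Pool.Agent.H918R2.Gal2
import Pool.Agent.Helper947.Crv.Sch
import Pool.Agent.Helper947.Crv.F9
import Pool.Agent.Helper947.Crv.H2
import Pool.Agent.Helper947.Crv.H4
import Pool.Agent.Helper947.Crv.H5
import Pool.Agent.Helper947.Crv.Z4
import Pool.Agent.Helper947.Hil.Final

set_option autoImplicit false

open MvPolynomial Filter CategoryTheory CategoryTheory.Limits AlgebraicGeometry
open Pool.Agent.Helper947.Crv

namespace Pool.Agent.H918R2

theorem cfg_map_map {K K' K'' : Type*} [CommRing K] [CommRing K'] [CommRing K''] {J M : Type}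
    (c : Cfg K J M) (φ : K →+* K') (ψ : K' →+* K'') : (c.map φ).map ψ = c.map (ψ.comp φ) := by
  simp only [Cfg.map, Matrix.map_map, MvPolynomial.map_map]
  rfl

/-- for every algebraic number there is a Hilbert scheme of space curves with a component which is
moved by all automorphisms which move the number -/
theorem main_gal (α : AlgebraicClosure ℚ) :
    ∃ d g : ℤ, Nonempty (HilbertScheme d g) ∧ ∀ 𝓗 : HilbertScheme d g,
      ∃ Z ∈ irreducibleComponents (bc 𝓗 (AlgebraicClosure ℚ)),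
        ∀ σ : AlgebraicClosure ℚ ≃+* AlgebraicClosure ℚ, galAct 𝓗 σ '' Z = Z → σ α = α := by
  classical
  have halg : IsAlgebraic ℚ α := (AlgebraicClosure.isAlgebraic ℚ).isAlgebraic α
  obtain ⟨S, h0, h1, hα, g, hg0, -, hgx⟩ := exists_grid α halg
  have hJ : 0 < Fintype.card (JP S) := Fintype.card_pos_iff.2 ⟨Sum.inl (Sum.inl 0)⟩
  obtain ⟨e, he⟩ : ∃ e, e = Fintype.card (MP S) + 2 * (ES S).card + 2 := ⟨_, rfl⟩
  obtain ⟨c0, hc0⟩ : ∃ c0 : ℕ, c0 + 2 * (ES S).card =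
      Fintype.card (JP S) * (1 + e) + Fintype.card (MP S) := by
    have : 2 * (ES S).card ≤ Fintype.card (JP S) * (1 + e) + Fintype.card (MP S) := by
      have h2 : 1 + e ≤ Fintype.card (JP S) * (1 + e) := Nat.le_mul_of_pos_left _ hJ
      omega
    exact ⟨_, Nat.sub_add_cancel this⟩
  obtain ⟨cfg, hgood, c, t, hc, ht, hd⟩ := exists_cfgS S (e := e) (by omega)
  have hE : 2 * (ES S).card + 1 < e := by omega
  refine ⟨((2 * Fintype.card (JP S) + Fintype.card (MP S) : ℕ) : ℤ), 1 - (c0 : ℤ),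
    Pool.Agent.Helper947.Hil.hilbert_scheme_exists _ _, fun 𝓗 => ?_⟩
  have hd1 : ((2 * Fintype.card (JP S) + Fintype.card (MP S) : ℕ) : ℤ) =
    2 * (Fintype.card (JP S) : ℤ) + Fintype.card (MP S) := by push_cast; ring
  have hg1 : 1 - (1 - (c0 : ℤ)) = Fintype.card (JP S) * (1 + e) + Fintype.card (MP S) -
      2 * (ES S).card := by
    have : (c0 : ℤ) + 2 * (ES S).card =
      Fintype.card (JP S) * (1 + e) + Fintype.card (MP S) := by exact_mod_cast hc0
    linarith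
  obtain ⟨x, hx⟩ := exists_pt hgood hd1 hg1
  refine ⟨irreducibleComponent (ptOf 𝓗 x), irreducibleComponent_mem_irreducibleComponents _, ?_⟩
  intro σ hσZ
  have hirr : IsIrreducible (irreducibleComponent (ptOf 𝓗 x)) := isIrreducible_irreducibleComponent
  have hcl : IsClosed (irreducibleComponent (ptOf 𝓗 x)) := isClosed_irreducibleComponent
  obtain ⟨η, hη⟩ := QuasiSober.sober hirr hcl
  have hxZ : ptOf 𝓗 x ∈ irreducibleComponent (ptOf 𝓗 x) := mem_irreducibleComponent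
  have hgood' : (cfg.map (σ : AlgebraicClosure ℚ →+* AlgebraicClosure ℚ)).Good e (ES S) :=
    Good.map hgood _
  obtain ⟨x', hx'⟩ := exists_pt hgood' hd1 hg1
  have hgal : galAct 𝓗 σ (ptOf 𝓗 x) = ptOf 𝓗 x' := by
    apply galAct_ptOf
    have h1 := J0_map (σ : AlgebraicClosure ℚ →+* AlgebraicClosure ℚ) hgood
    rw [eventually_atTop] at h1
    obtain ⟨m0, hm0⟩ := h1
    refine ⟨m0, fun m hm p hp => ?_⟩
    rw [hx, hx', hm0 m hm p hp]
  have hx'Z : ptOf 𝓗 x' ∈ irreducibleComponent (ptOf 𝓗 x) := by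
    rw [← hσZ, ← hgal]
    exact ⟨_, hxZ, rfl⟩
  have hsp : η ⤳ ptOf 𝓗 x := hη.specializes hxZ
  have hsp' : η ⤳ ptOf 𝓗 x' := hη.specializes hx'Z
  obtain ⟨K, _, _, f, hf⟩ := exists_geom η
  have hid : ∀ p : bc 𝓗 (AlgebraicClosure ℚ), bcMap 𝓗 (RingHom.id (AlgebraicClosure ℚ)) p = p := by
    intro p
    rw [bcMap_id]
    rfl
  obtain ⟨V, θ, s, e1, e2, e3⟩ := key 𝓗 (RingHom.id (AlgebraicClosure ℚ))
    (fun a => ⟨a, rfl⟩) x f (by rw [hf, hid]; exact hsp) hgood hx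
  obtain ⟨V', θ', s', e1', e2', e3'⟩ := key 𝓗 (RingHom.id (AlgebraicClosure ℚ))
    (fun a => ⟨a, rfl⟩) x' f (by rw [hf, hid]; exact hsp') hgood' hx'
  have hs : V.subtype.comp s = V'.subtype.comp s' := by
    have h4 := e2.trans e2'.symm
    have h5 := Spec.map_injective h4
    exact congrArg CommRingCat.Hom.hom h5
  have hθ : θ = (IsLocalRing.residue V).comp s := by rw [e1]; rfl
  have hθ' : θ'.comp (σ : AlgebraicClosure ℚ →+* AlgebraicClosure ℚ) =
      (IsLocalRing.residue V').comp (s'.comp (σ : AlgebraicClosure ℚ →+* AlgebraicClosure ℚ)) := by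
    rw [← RingHom.comp_assoc, e1']; rfl
  rw [hθ] at e3
  rw [cfg_map_map, hθ'] at e3'
  obtain ⟨L, hLi, hLr, hLG, hLx⟩ := xval_eq S h0 h1 hα hg0 hgx hgood hE hc ht hd V s
    (𝓗.Φ K (f ≫ pullback.fst _ _)).hom e3
  obtain ⟨L', hLi', hLr', hLG', hLx'⟩ := xval_eq S h0 h1 hα hg0 hgx hgood hE hc ht hd V'
    (s'.comp (σ : AlgebraicClosure ℚ →+* AlgebraicClosure ℚ))
    (𝓗.Φ K (f ≫ pullback.fst _ _)).hom e3'
  have hLL := rigid (fS S) (fS_inj S) (fS_two S) _ L L' hLi hLi' (hLr.trans hLr'.symm)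
    (fun C C' => C ≠ C' ∧ (C - C').det = 0) hLG hLG'
  have hLL' : (fun u => L (Sum.inl u)) = fun u => L' (Sum.inl u) := funext hLL
  rw [hLL', hLx'] at hLx
  have h5 : ((s (σ α) : V) : K) = ((s' (σ α) : V') : K) := by
    have := RingHom.congr_fun hs (σ α)
    simpa using this
  have h6 : ((s (σ α) : V) : K) = ((s α : V) : K) := h5.trans hLx
  exact s.injective (Subtype.ext h6)

/-- every number field is contained in the field of definition of a component of a Hilbert scheme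
of space curves -/
theorem main_gal' (F : IntermediateField ℚ (AlgebraicClosure ℚ)) [FiniteDimensional ℚ F] :
    ∃ d g : ℤ, Nonempty (HilbertScheme d g) ∧ ∀ 𝓗 : HilbertScheme d g,
      ∃ Z ∈ irreducibleComponents (bc 𝓗 (AlgebraicClosure ℚ)),
        ∀ σ : AlgebraicClosure ℚ ≃ₐ[ℚ] AlgebraicClosure ℚ,
          galAct 𝓗 σ.toRingEquiv '' Z = Z → ∀ a ∈ F, σ a = a := by
  have pb := Field.powerBasisOfFiniteOfSeparable ℚ F
  obtain ⟨d, g, h1, h2⟩ := main_gal (pb.gen : AlgebraicClosure ℚ)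
  refine ⟨d, g, h1, fun 𝓗 => ?_⟩
  obtain ⟨Z, hZ, h3⟩ := h2 𝓗
  refine ⟨Z, hZ, fun σ hσ a ha => ?_⟩
  have h4 : σ pb.gen = pb.gen := h3 σ.toRingEquiv hσ
  have h5 : (σ : AlgebraicClosure ℚ →ₐ[ℚ] AlgebraicClosure ℚ).comp F.val = F.val :=
    pb.algHom_ext h4
  exact DFunLike.congr_fun h5 (⟨a, ha⟩ : F)

end Pool.Agent.H918R2
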